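import Pool.Agent.K9h59.OM.Win
import Pool.Agent.K9h54.TF.LL

set_option autoImplicit false

/-! Trigonometric sums: the formula of Parseval and the additive energy of a finite set. -/

namespace Pool.Agent.K9h29.SS

open Finset
open Pool.Agent.H807R2.Dav (ee norm_ee ee_add ee_zero)
open Pool.Agent.K9h59.OM (orth)

/-- the number of the solutions of `f 1 + ⋯ + f s = g 1 + ⋯ + g s` in `S` -/
def energy (s : ℕ) (S : Finset ℕ) : ℕ :=
  (((Fintype.piFinset (fun _ : Fin s => S)) ×ˢ (Fintype.piFinset (fun _ : Fin s => S))).filter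
    (fun fg => ∑ i, fg.1 i = ∑ i, fg.2 i)).card

lemma conj_ee (x : ℝ) : (starRingEnd ℂ) (ee x) = ee (-x) := by
  unfold ee
  rw [← Complex.exp_conj]
  congr 1
  simp only [map_mul, Complex.conj_I, Complex.conj_ofReal, map_ofNat]
  push_cast
  ring

/-- Parseval with repeated frequencies -/
theorem pars {ι : Type} (q : ℕ) (hq : 1 ≤ q) (I : Finset ι) (c : ι → ℂ) (ν : ι → ℤ) :
    ((∑ a ∈ range q, ‖∑ i ∈ I, c i * ee ((ν i : ℝ) * ((a : ℝ) / q))‖ ^ 2 : ℝ) : ℂ) =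
      q * ∑ i ∈ I, ∑ j ∈ I, (if (q : ℤ) ∣ ν i - ν j then c i * (starRingEnd ℂ) (c j) else 0) := by
  have h1 : ∀ a : ℕ, ((‖∑ i ∈ I, c i * ee ((ν i : ℝ) * ((a : ℝ) / q))‖ ^ 2 : ℝ) : ℂ) =
      ∑ i ∈ I, ∑ j ∈ I, c i * (starRingEnd ℂ) (c j) * ee (((ν i - ν j : ℤ) : ℝ) * ((a : ℝ) / q)) := by
    intro a
    rw [Complex.ofReal_pow, ← Complex.mul_conj', map_sum, sum_mul_sum]
    apply sum_congr rfl
    intro i _
    apply sum_congr rfl
    intro j _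
    have h2 : ee (((ν i - ν j : ℤ) : ℝ) * ((a : ℝ) / q)) =
        ee ((ν i : ℝ) * ((a : ℝ) / q)) * ee (-((ν j : ℝ) * ((a : ℝ) / q))) := by
      rw [← ee_add]
      congr 1
      push_cast
      ring
    rw [map_mul, conj_ee, h2]
    ring
  rw [Complex.ofReal_sum]
  simp_rw [h1]
  rw [sum_comm, mul_sum]
  apply sum_congr rfl
  intro i _
  rw [sum_comm, mul_sum]
  apply sum_congr rfl
  intro j _
  rw [← mul_sum, orth (ν i - ν j) q hq]
  split_ifs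
  · ring
  · rw [mul_zero, mul_zero]

/-- Parseval -/
theorem pars_inj {ι : Type} (q : ℕ) (hq : 1 ≤ q) (I : Finset ι) (c : ι → ℂ) (ν : ι → ℤ)
    (hinj : ∀ i ∈ I, ∀ j ∈ I, (q : ℤ) ∣ ν i - ν j → i = j) :
    ∑ a ∈ range q, ‖∑ i ∈ I, c i * ee ((ν i : ℝ) * ((a : ℝ) / q))‖ ^ 2 = q * ∑ i ∈ I, ‖c i‖ ^ 2 := by
  classical
  have h1 := pars q hq I c ν
  have h2 : ∀ i ∈ I, ∑ j ∈ I, (if (q : ℤ) ∣ ν i - ν j then c i * (starRingEnd ℂ) (c j) else 0) =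
      ((‖c i‖ ^ 2 : ℝ) : ℂ) := by
    intro i hi
    rw [sum_eq_single_of_mem i hi]
    · rw [sub_self, if_pos (dvd_zero _), Complex.mul_conj', Complex.ofReal_pow]
    · intro j hj hji
      rw [if_neg]
      intro h
      exact hji (hinj i hi j hj h).symm
  rw [sum_congr rfl h2] at h1
  have h3 : ((∑ a ∈ range q, ‖∑ i ∈ I, c i * ee ((ν i : ℝ) * ((a : ℝ) / q))‖ ^ 2 : ℝ) : ℂ) =
      ((q * ∑ i ∈ I, ‖c i‖ ^ 2 : ℝ) : ℂ) := by
    rw [h1]
    push_cast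
    rfl
  exact_mod_cast h3

/-- the mean square is at most the number of the coincidences of the frequencies -/
theorem pars_le {ι : Type} [DecidableEq ι] (q : ℕ) (hq : 1 ≤ q) (I : Finset ι) (c : ι → ℂ) (ν : ι → ℤ)
    (hc : ∀ i ∈ I, ‖c i‖ ≤ 1) :
    ∑ a ∈ range q, ‖∑ i ∈ I, c i * ee ((ν i : ℝ) * ((a : ℝ) / q))‖ ^ 2 ≤
      q * (((I ×ˢ I).filter (fun x => (q : ℤ) ∣ ν x.1 - ν x.2)).card : ℝ) := by
  have h1 := pars q hq I c ν
  have h0 : 0 ≤ ∑ a ∈ range q, ‖∑ i ∈ I, c i * ee ((ν i : ℝ) * ((a : ℝ) / q))‖ ^ 2 :=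
    sum_nonneg fun a _ => by positivity
  have h2 : ∑ a ∈ range q, ‖∑ i ∈ I, c i * ee ((ν i : ℝ) * ((a : ℝ) / q))‖ ^ 2 =
      ‖((∑ a ∈ range q, ‖∑ i ∈ I, c i * ee ((ν i : ℝ) * ((a : ℝ) / q))‖ ^ 2 : ℝ) : ℂ)‖ := by
    rw [Complex.norm_real, Real.norm_eq_abs, abs_of_nonneg h0]
  rw [h2, h1, norm_mul, Complex.norm_natCast]
  apply mul_le_mul_of_nonneg_left _ (Nat.cast_nonneg _)
  have h3 : (((I ×ˢ I).filter (fun x => (q : ℤ) ∣ ν x.1 - ν x.2)).card : ℝ) =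
      ∑ i ∈ I, ∑ j ∈ I, (if (q : ℤ) ∣ ν i - ν j then (1 : ℝ) else 0) := by
    rw [card_filter]
    push_cast
    rw [sum_product]
  rw [h3]
  refine (norm_sum_le _ _).trans (sum_le_sum fun i hi => ?_)
  refine (norm_sum_le _ _).trans (sum_le_sum fun j hj => ?_)
  split_ifs
  · rw [norm_mul, RCLike.norm_conj]
    exact mul_le_one₀ (hc i hi) (norm_nonneg _) (hc j hj)
  · rw [norm_zero]

theorem prod_ee {ι : Type} [DecidableEq ι] (I : Finset ι) (f : ι → ℝ) : ∏ i ∈ I, ee (f i) = ee (∑ i ∈ I, f i) := by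
  induction I using Finset.induction_on with
  | empty => rw [prod_empty, sum_empty, ee_zero]
  | insert a I ha ih => rw [prod_insert ha, sum_insert ha, ih, ee_add]

/-- the moments of a trigonometric sum over a set -/
theorem moment (s : ℕ) (S : Finset ℕ) (W q : ℕ) (hW : 1 ≤ W) (hq : 1 ≤ q) (N : ℕ) (hS : ∀ v ∈ S, W * v ≤ N)
    (hqN : s * N < q) (c : ℕ → ℂ) (hc : ∀ v, ‖c v‖ ≤ 1) :
    ∑ a ∈ range q, ‖∑ v ∈ S, c v * ee ((((W * v : ℕ) : ℤ) : ℝ) * ((a : ℝ) / q))‖ ^ (2 * s) ≤ q * (energy s S : ℝ) := by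
  classical
  have h1 : ∀ a : ℕ, (∑ v ∈ S, c v * ee ((((W * v : ℕ) : ℤ) : ℝ) * ((a : ℝ) / q))) ^ s =
      ∑ f ∈ Fintype.piFinset (fun _ : Fin s => S), (∏ i, c (f i)) *
        ee ((((W * ∑ i, f i : ℕ) : ℤ) : ℝ) * ((a : ℝ) / q)) := by
    intro a
    have h2 := Finset.prod_univ_sum (ι := Fin s) (fun _ : Fin s => S)
      (fun _ v => c v * ee ((((W * v : ℕ) : ℤ) : ℝ) * ((a : ℝ) / q)))
    rw [prod_const, card_univ, Fintype.card_fin] at h2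
    rw [h2]
    apply sum_congr rfl
    intro f _
    rw [prod_mul_distrib, prod_ee]
    congr 2
    rw [← sum_mul]
    congr 1
    push_cast
    rw [mul_sum]
  have h3 : ∀ a : ℕ, ‖∑ v ∈ S, c v * ee ((((W * v : ℕ) : ℤ) : ℝ) * ((a : ℝ) / q))‖ ^ (2 * s) =
      ‖∑ f ∈ Fintype.piFinset (fun _ : Fin s => S), (∏ i, c (f i)) *
        ee ((((W * ∑ i, f i : ℕ) : ℤ) : ℝ) * ((a : ℝ) / q))‖ ^ 2 := by
    intro a
    rw [← h1, norm_pow, ← pow_mul, mul_comm s 2]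
  simp_rw [h3]
  have h4 := pars_le q hq (Fintype.piFinset (fun _ : Fin s => S)) (fun f => ∏ i, c (f i))
    (fun f => ((W * ∑ i, f i : ℕ) : ℤ)) (by
      intro f _
      rw [norm_prod]
      exact prod_le_one (fun i _ => norm_nonneg _) fun i _ => hc (f i))
  refine h4.trans (mul_le_mul_of_nonneg_left ?_ (Nat.cast_nonneg _))
  unfold energy
  have h5 : ∀ f ∈ Fintype.piFinset (fun _ : Fin s => S), W * ∑ i, f i ≤ s * N := by
    intro f hf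
    rw [mul_sum]
    have h6 : ∑ i, W * f i ≤ ∑ _i : Fin s, N := sum_le_sum fun i _ => hS _ (Fintype.mem_piFinset.1 hf i)
    rw [sum_const, card_univ, Fintype.card_fin, smul_eq_mul] at h6
    exact h6
  have h7 : (((Fintype.piFinset (fun _ : Fin s => S)) ×ˢ (Fintype.piFinset (fun _ : Fin s => S))).filter
      (fun x => (q : ℤ) ∣ ((W * ∑ i, x.1 i : ℕ) : ℤ) - ((W * ∑ i, x.2 i : ℕ) : ℤ))) ⊆
      (((Fintype.piFinset (fun _ : Fin s => S)) ×ˢ (Fintype.piFinset (fun _ : Fin s => S))).filter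
      (fun fg => ∑ i, fg.1 i = ∑ i, fg.2 i)) := by
    intro x hx
    rw [mem_filter] at hx ⊢
    refine ⟨hx.1, ?_⟩
    have g1 := h5 _ (mem_product.1 hx.1).1
    have g2 := h5 _ (mem_product.1 hx.1).2
    have g3 : ((W * ∑ i, x.1 i : ℕ) : ℤ) - ((W * ∑ i, x.2 i : ℕ) : ℤ) = 0 := by
      apply Int.eq_zero_of_abs_lt_dvd hx.2
      rw [abs_lt]
      constructor <;> omega
    have g4 : W * ∑ i, x.1 i = W * ∑ i, x.2 i := by omega
    exact Nat.eq_of_mul_eq_mul_left hW g4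
  exact_mod_cast card_le_card h7

end Pool.Agent.K9h29.SS
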