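import Pool.Agent.K9h59.OM.Sd

set_option autoImplicit false

/-! The law of `v + l`, `v` in a set and `l` in an interval: residues and the sieve property. -/

namespace Pool.Agent.K9h29.SS

open Finset Filter
open Pool.Agent.H373R2.T7 (nuB PerB pz mem_pz)
open Pool.Agent.K9h59.OM (SvP svg compl_class)

/-- the integers of an interval in a residue class -/
lemma cnt_class (L q v c : ℕ) (hq : 1 ≤ q) :
    |(((range L).filter (fun l => v + l ≡ c [MOD q])).card : ℝ) - L / q| ≤ 1 := by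
  have h1 : (range L).filter (fun l => v + l ≡ c [MOD q]) = (range L).filter (fun l => l ≡ c + (q - 1) * v [MOD q]) := by
    apply filter_congr
    intro l _
    rw [Nat.modEq_iff_dvd, Nat.modEq_iff_dvd]
    have e2 : ((c + (q - 1) * v : ℕ) : ℤ) = c + ((q : ℤ) - 1) * v := by
      push_cast [Nat.cast_sub hq]
      ring
    rw [e2]
    push_cast
    have e3 : (c : ℤ) + ((q : ℤ) - 1) * v - l = q * v + (c - (v + l)) := by ring
    have e4 : (c : ℤ) - (v + l) = ((c : ℤ) + ((q : ℤ) - 1) * v - l) - q * v := by ring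
    constructor
    · intro h
      rw [e3]
      exact dvd_add (dvd_mul_right _ _) h
    · intro h
      rw [e4]
      exact dvd_sub h (dvd_mul_right _ _)
  rw [h1, ← Nat.count_eq_card_filter_range, Nat.count_modEq_card _ (by omega)]
  have hq0 : (0 : ℝ) < q := by exact_mod_cast hq
  have h2 : (L : ℝ) = q * ((L / q : ℕ) : ℝ) + ((L % q : ℕ) : ℝ) := by exact_mod_cast (Nat.div_add_mod L q).symm
  have h3 : ((L % q : ℕ) : ℝ) ≤ q := by exact_mod_cast (Nat.mod_lt L (by omega)).le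
  have h4 : (0 : ℝ) ≤ ((L % q : ℕ) : ℝ) := Nat.cast_nonneg _
  have h5 : (L : ℝ) / q = ((L / q : ℕ) : ℝ) + ((L % q : ℕ) : ℝ) / q := by
    rw [div_eq_iff hq0.ne']
    rw [add_mul, div_mul_cancel₀ _ hq0.ne']
    linarith
  have h6 : ((L % q : ℕ) : ℝ) / q ≤ 1 := by
    rw [div_le_one hq0]
    exact h3
  have h7 : 0 ≤ ((L % q : ℕ) : ℝ) / q := by positivity
  rw [h5, abs_le]
  push_cast
  split_ifs <;> constructor <;> linarith

/-- the residues of `v + l` are uniformly distributed -/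
lemma unif (S : Finset ℕ) (hS : S.Nonempty) (L : ℕ) (hL : 1 ≤ L) (q c : ℕ) (hq : 1 ≤ q) :
    |∑ ξ ∈ (S ×ˢ range L).filter (fun ξ => ξ.1 + ξ.2 ≡ c [MOD q]), (1 / ((S.card : ℝ) * L)) - 1 / q| ≤ 1 / L := by
  have hS0 : (0 : ℝ) < S.card := by exact_mod_cast hS.card_pos
  have hL0 : (0 : ℝ) < L := by exact_mod_cast hL
  have h1 : (((S ×ˢ range L).filter (fun ξ => ξ.1 + ξ.2 ≡ c [MOD q])).card : ℝ) =
      ∑ v ∈ S, (((range L).filter (fun l => v + l ≡ c [MOD q])).card : ℝ) := by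
    rw [card_filter, sum_product]
    push_cast
    apply sum_congr rfl
    intro v _
    rw [card_filter]
    push_cast
    rfl
  rw [sum_const, nsmul_eq_mul, h1]
  have h2 : |∑ v ∈ S, (((range L).filter (fun l => v + l ≡ c [MOD q])).card : ℝ) - S.card * (L / q)| ≤ S.card := by
    have h3 : ∑ v ∈ S, (((range L).filter (fun l => v + l ≡ c [MOD q])).card : ℝ) - S.card * (L / q) =
        ∑ v ∈ S, ((((range L).filter (fun l => v + l ≡ c [MOD q])).card : ℝ) - L / q) := by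
      rw [sum_sub_distrib, sum_const, nsmul_eq_mul]
    rw [h3]
    refine (abs_sum_le_sum_abs _ _).trans ((sum_le_sum fun v _ => cnt_class L q v c hq).trans ?_)
    rw [sum_const, nsmul_eq_mul, mul_one]
  have hq0 : (0 : ℝ) < q := by exact_mod_cast hq
  have h4 : (∑ v ∈ S, (((range L).filter (fun l => v + l ≡ c [MOD q])).card : ℝ)) * (1 / ((S.card : ℝ) * L)) - 1 / q =
      (∑ v ∈ S, (((range L).filter (fun l => v + l ≡ c [MOD q])).card : ℝ) - S.card * (L / q)) * (1 / ((S.card : ℝ) * L)) := by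
    field_simp
  rw [h4, abs_mul, abs_of_pos (show (0 : ℝ) < 1 / ((S.card : ℝ) * L) by positivity)]
  calc _ ≤ (S.card : ℝ) * (1 / ((S.card : ℝ) * L)) := mul_le_mul_of_nonneg_right h2 (by positivity)
    _ = 1 / L := by field_simp

/-- the sieve property -/
theorem svS (E U : ℕ) : ∃ k₀ : ℕ, ∀ k : ℕ, k₀ ≤ k → ∀ (S : Finset ℕ), S.Nonempty → ∀ L : ℕ, 1 ≤ L →
    1 / (L : ℝ) ≤ Real.exp (-√(k : ℝ)) → ∀ z w : ℕ, 1 ≤ z → (z : ℝ) ≤ (k : ℝ) ^ E → ∀ Tm : ℕ,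
    (∀ ξ ∈ S ×ˢ range L, ξ.1 + ξ.2 ≤ Tm) →
    SvP (S ×ˢ range L) (fun _ => 1 / ((S.card : ℝ) * L)) (fun ξ => Tm - (ξ.1 + ξ.2)) z w (1 / (k : ℝ) ^ U) := by
  classical
  obtain ⟨C3, k₁, h1⟩ := svg E U
  refine ⟨k₁, fun k hk S hS L hL hLk z w hz hzE Tm hTm Q hQ hQw F hF => ?_⟩
  have h3 := h1 k hk (ℕ × ℕ) (S ×ˢ range L) (fun _ => 1 / ((S.card : ℝ) * L)) (fun ξ => Tm - (ξ.1 + ξ.2)) 1
    (fun _ _ => by positivity) (by
      intro q hq1 _ _ c
      refine le_trans ?_ hLk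
      have h4 : (S ×ˢ range L).filter (fun ξ => Tm - (ξ.1 + ξ.2) ≡ c [MOD q]) =
          (S ×ˢ range L).filter (fun ξ => ξ.1 + ξ.2 ≡ Tm + (q - 1) * c [MOD q]) := by
        apply filter_congr
        intro ξ hξ
        exact compl_class hq1 (hTm ξ hξ)
      rw [h4]
      exact unif S hS L hL q _ hq1) z hz hzE Q hQ (by
      intro r _ hr
      exact absurd (Nat.coprime_one_right r) hr)
  have h4 : F = (S ×ˢ range L).filter (fun ξ => ∀ r ∈ pz z, ¬ Q r (Tm - (ξ.1 + ξ.2))) := by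
    ext ξ
    rw [hF, mem_filter]
  rw [h4]
  exact h3

/-- the classes of `c + W (v + l)` modulo a prime -/
theorem clsS (S : Finset ℕ) (hS : S.Nonempty) (L : ℕ) (hL : 1 ≤ L) (W c q : ℕ) (hq : 1 ≤ q) (hqW : Nat.Coprime q W)
    (F : Finset (ℕ × ℕ)) (hF : F ⊆ S ×ˢ range L) (hr : ∃ r : ℕ, ∀ ξ ∈ F, r % q = (c + W * (ξ.1 + ξ.2)) % q) :
    ∑ _ξ ∈ F, (1 / ((S.card : ℝ) * L)) ≤ 1 / (q : ℝ) + 1 / L := by
  obtain ⟨r, hr⟩ := hr
  rcases F.eq_empty_or_nonempty with h0 | ⟨ξ₀, hξ₀⟩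
  · rw [h0, sum_empty]
    positivity
  have h4 := (abs_le.1 (unif S hS L hL q (ξ₀.1 + ξ₀.2) hq)).2
  have h5 : ∑ _ξ ∈ F, (1 / ((S.card : ℝ) * L)) ≤
      ∑ ξ ∈ (S ×ˢ range L).filter (fun ξ => ξ.1 + ξ.2 ≡ ξ₀.1 + ξ₀.2 [MOD q]), (1 / ((S.card : ℝ) * L)) := by
    apply sum_le_sum_of_subset_of_nonneg
    · intro ξ hξ
      rw [mem_filter]
      refine ⟨hF hξ, ?_⟩
      have h6 : c + W * (ξ.1 + ξ.2) ≡ c + W * (ξ₀.1 + ξ₀.2) [MOD q] := (hr ξ hξ).symm.trans (hr ξ₀ hξ₀)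
      have h7 : W * (ξ.1 + ξ.2) ≡ W * (ξ₀.1 + ξ₀.2) [MOD q] := Nat.ModEq.add_left_cancel' c h6
      exact Nat.ModEq.cancel_left_of_coprime hqW h7
    · intro ξ _ _
      positivity
  linarith

end Pool.Agent.K9h29.SS
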