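import Pool.Agent.K9h29.SS.Gn
import Pool.Agent.K9h29.SS.Cg
import Pool.Agent.K9h29.SS.Law

set_option autoImplicit false

/-! One more prime for the shifts near a set of small additive energy. -/

namespace Pool.Agent.K9h29.SS

open Finset Filter
open Pool.Agent.H387R2.Uni (nuT CT)
open Pool.Agent.H373R2.T7 (pz mem_pz Vz)
open Pool.Agent.K9h54.TF (EX evlog)
open Pool.Agent.K9h59.OM (SvP cop_W)

/-- the conditions on `l = log x` -/
structure Lg (K1 : ℝ) (E w k₀ : ℕ) (l : ℝ) : Prop where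
  l4 : 4 ≤ l
  lw : (2 * w + 2 : ℝ) ≤ l
  lk : (k₀ : ℝ) ≤ l
  a1 : 2 / l + (1 + 2 * E) / (2 * √l) ≤ K1

theorem lg (K1 : ℝ) (hK1 : 0 < K1) (E w k₀ : ℕ) : ∀ᶠ l : ℝ in atTop, Lg K1 E w k₀ l := by
  have h1 : Tendsto (fun l : ℝ => 2 / l + (1 + 2 * (E : ℝ)) / (2 * √l)) atTop (nhds (0 + 0)) := by
    apply Tendsto.add
    · exact tendsto_const_nhds.div_atTop tendsto_id
    · exact tendsto_const_nhds.div_atTop (Real.tendsto_sqrt_atTop.const_mul_atTop two_pos)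
  rw [add_zero] at h1
  filter_upwards [eventually_ge_atTop (4 : ℝ), eventually_ge_atTop (2 * w + 2 : ℝ), eventually_ge_atTop (k₀ : ℝ),
    h1.eventually (eventually_le_nhds hK1)] with l g1 g2 g3 g4
  exact ⟨g1, g2, g3, g4⟩

lemma log_le_sqrt {l : ℝ} (hl : 1 ≤ l) : Real.log l ≤ 2 * √l := by
  have h1 : Real.log l = 2 * Real.log (√l) := by
    rw [Real.log_sqrt (by linarith)]
    ring
  have h2 := Real.log_le_self (Real.sqrt_nonneg l)
  linarith

/-- the error of the residues -/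
lemma kap {l K1 : ℝ} {E w k₀ L z : ℕ} (h : Lg K1 E w k₀ l) (hL : Real.exp (2 * √l) ≤ L) (hz1 : l ^ 2 ≤ z)
    (hz2 : (z : ℝ) ≤ l ^ E) : 1 / (L : ℝ) * (1 + Real.log z) + 2 * l / z ≤ K1 ∧ 2 / (z : ℝ) + 1 / L ≤ K1 := by
  obtain ⟨l4, _, _, a1⟩ := h
  have hl0 : 0 < l := by linarith
  have hs0 : 0 < √l := Real.sqrt_pos.2 hl0
  have hss : √l * √l = l := Real.mul_self_sqrt hl0.le
  have hs1 : 1 ≤ √l := by
    rw [Real.one_le_sqrt]
    linarith
  have hz0 : (0 : ℝ) < z := lt_of_lt_of_le (by positivity) hz1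
  have hL2 : 2 * l ≤ L := by
    refine le_trans ?_ hL
    have h1 := Real.quadratic_le_exp_of_nonneg (show 0 ≤ 2 * √l by positivity)
    nlinarith
  have hL0 : (0 : ℝ) < L := by linarith
  have h1 : 1 + Real.log z ≤ (1 + 2 * E) * √l := by
    have h2 := Real.log_le_log hz0 hz2
    rw [Real.log_pow] at h2
    have h3 := log_le_sqrt (l := l) (by linarith)
    have h4 : (E : ℝ) * Real.log l ≤ E * (2 * √l) := mul_le_mul_of_nonneg_left h3 (Nat.cast_nonneg _)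
    nlinarith
  have h2 : 1 / (L : ℝ) ≤ 1 / (2 * l) := one_div_le_one_div_of_le (by positivity) hL2
  have h3 : 1 / (L : ℝ) * (1 + Real.log z) ≤ (1 + 2 * E) / (2 * √l) := by
    have hE0 : (0 : ℝ) ≤ 1 + 2 * E := by positivity
    calc 1 / (L : ℝ) * (1 + Real.log z) ≤ 1 / (L : ℝ) * ((1 + 2 * E) * √l) := mul_le_mul_of_nonneg_left h1 (by positivity)
      _ ≤ 1 / (2 * l) * ((1 + 2 * E) * √l) := mul_le_mul_of_nonneg_right h2 (by positivity)
      _ = (1 + 2 * E) / (2 * √l) := by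
          nth_rewrite 1 [← hss]
          field_simp
  have h4 : 2 * l / z ≤ 2 / l := by
    rw [div_le_div_iff₀ hz0 hl0]
    nlinarith
  have h5 : 2 / (z : ℝ) ≤ 2 / l := by
    apply div_le_div_of_nonneg_left (by norm_num) hl0
    nlinarith
  have h6 : 1 / (L : ℝ) ≤ (1 + 2 * E) / (2 * √l) := by
    refine h2.trans ?_
    rw [div_le_div_iff₀ (by positivity) (by positivity)]
    have hE0 : (0 : ℝ) ≤ E := Nat.cast_nonneg _
    nlinarith
  constructor <;> linarith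

open Classical in
/-- ONE MORE PRIME for the shifts near a set of small additive energy -/
theorem fss (s C u : ℕ) (hs : 1 ≤ s) (hu : 1 ≤ u) (ε : ℝ) (hε : 0 < ε) :
    ∃ w1 : ℕ, ∀ w : ℕ, w1 ≤ w → ∃ x0 : ℕ, ∀ x : ℕ, x0 ≤ x → ∀ T : Finset ℕ, T.card = u →
    (∀ p, p.Prime → nuT T p < p) → (∀ h ∈ T, h ≤ x) → ∀ A ⊆ Icc 1 x, (∀ n ∈ A, ∀ h ∈ T, (n - h).Prime) → ∀ c : ℕ,
    (∀ r ∈ pz w, ∃ h ∈ T, h % r = c % r) → ∀ S : Finset ℕ, S.Nonempty →
    (energy s S : ℝ) * x ≤ (S.card : ℝ) ^ (2 * s) * Real.log x ^ C → ∀ L : ℕ, Real.exp (2 * √(Real.log x)) ≤ L →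
    (∀ ξ ∈ S ×ˢ range L, ((c + (∏ q ∈ pz w, q) * (ξ.1 + ξ.2) : ℕ) : ℝ) * Real.log x ^ 2 ≤ x) →
    (((S ×ˢ range L).filter (fun ξ => c + (∏ q ∈ pz w, q) * (ξ.1 + ξ.2) ∈ T ∨
      ¬ (0 < CT (insert (c + (∏ q ∈ pz w, q) * (ξ.1 + ξ.2)) T) ∧
        |((A.filter (fun n : ℕ => (n - (c + (∏ q ∈ pz w, q) * (ξ.1 + ξ.2))).Prime)).card : ℝ) * Real.log x ^ (u + 1) /
          (CT (insert (c + (∏ q ∈ pz w, q) * (ξ.1 + ξ.2)) T) * x) - A.card * Real.log x ^ u / (CT T * x)| ≤ ε))).card : ℝ) ≤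
      ε * (S.card * L) := by
  obtain ⟨C5, hC5, hm⟩ := mdnG u hu
  obtain ⟨ν, hν, K1, hK1, w1, hcomb⟩ := combG u C5 hC5 ε hε
  obtain ⟨w2, hm⟩ := hm ν hν
  obtain ⟨B, hmean⟩ := mean s (C + 1) (2 * u + 3) hs
  obtain ⟨E, hE⟩ : ∃ E, E = 2 * (B + 2) + 1 := ⟨_, rfl⟩
  obtain ⟨N0, hmean⟩ := hmean E
  obtain ⟨k₀, hsv⟩ := svS E 6
  refine ⟨max w1 w2, fun w hw => ?_⟩
  have hcomb := hcomb w ((le_max_left _ _).trans hw)
  obtain ⟨x1, hm⟩ := hm w ((le_max_right _ _).trans hw) E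
  obtain ⟨X, hX⟩ := evlog (lg K1 hK1 E w k₀)
  refine ⟨max (max x1 X) (max N0 1), fun x hx T hT hadm hTx A hA hAT c hcov S hS hen L hL hrange => ?_⟩
  have hxx1 : x1 ≤ x := (le_max_left _ _).trans ((le_max_left _ _).trans hx)
  have hxX : X ≤ x := (le_max_right _ _).trans ((le_max_left _ _).trans hx)
  have hxN : N0 ≤ x := (le_max_left _ _).trans ((le_max_right _ _).trans hx)
  have hx1' : 1 ≤ x := (le_max_right _ _).trans ((le_max_right _ _).trans hx)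
  have hlg := hX x hxX
  obtain ⟨W, hW⟩ : ∃ W : ℕ, W = ∏ q ∈ pz w, q := ⟨_, rfl⟩
  have hW1 : 1 ≤ W := by
    rw [hW]
    exact Nat.pos_of_ne_zero (prod_ne_zero_iff.2 fun q hq => (mem_pz.1 hq).2.ne_zero)
  obtain ⟨l, hl⟩ : ∃ l, l = Real.log x := ⟨_, rfl⟩
  have hx0 : (0 : ℝ) < x := by exact_mod_cast hx1'
  have hrange' : ∀ ξ ∈ S ×ˢ range L, ((c + (∏ q ∈ pz w, q) * (ξ.1 + ξ.2) : ℕ) : ℝ) * Real.log x ^ 2 ≤ x := hrange
  rw [← hl] at hlg hen hL hrange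
  have hlg' := hlg
  obtain ⟨l4, lw, lk, _⟩ := hlg
  have hl0 : 0 < l := by linarith
  have hL1 : 1 ≤ L := by
    have h1 : (0 : ℝ) < L := lt_of_lt_of_le (Real.exp_pos _) hL
    exact_mod_cast h1
  have hL0 : (0 : ℝ) < L := by exact_mod_cast hL1
  have hS0 : (0 : ℝ) < S.card := by exact_mod_cast hS.card_pos
  -- the sieving limit
  obtain ⟨z, hz⟩ : ∃ z : ℕ, z = ⌈(2 * l) ^ (B + 2)⌉₊ := ⟨_, rfl⟩
  have hzl : (2 * l) ^ (B + 2) ≤ z := by
    rw [hz]
    exact Nat.le_ceil _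
  have hzu : (z : ℝ) ≤ l ^ E := by
    have h1 : (z : ℝ) ≤ (2 * l) ^ (B + 2) + 1 := by
      rw [hz]
      exact (Nat.ceil_lt_add_one (by positivity)).le
    have h2 : (2 * l) ^ (B + 2) ≤ l ^ (2 * (B + 2)) := by
      rw [pow_mul]
      exact pow_le_pow_left₀ (by positivity) (by nlinarith) _
    have h3 : 1 ≤ l ^ (2 * (B + 2)) := one_le_pow₀ (by linarith)
    rw [hE, pow_succ]
    nlinarith
  have hz2 : l ^ 2 ≤ z := by
    refine le_trans ?_ hzl
    calc l ^ 2 ≤ (2 * l) ^ 2 := pow_le_pow_left₀ hl0.le (by linarith) 2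
      _ ≤ (2 * l) ^ (B + 2) := pow_le_pow_right₀ (by linarith) (by omega)
  have hzw : 2 * w + 2 ≤ z := by
    have : (2 * w + 2 : ℝ) ≤ z := by nlinarith
    exact_mod_cast this
  obtain ⟨q1, q2⟩ := kap hlg' hL hz2 hzu
  -- the parameter `k`
  obtain ⟨k, hk⟩ : ∃ k : ℕ, k = ⌈l⌉₊ := ⟨_, rfl⟩
  have hkl : l ≤ k := by
    rw [hk]
    exact Nat.le_ceil _
  have hku : (k : ℝ) ≤ 4 * l := by
    have := (Nat.ceil_lt_add_one hl0.le).le
    rw [← hk] at this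
    linarith
  have hkk : k₀ ≤ k := by exact_mod_cast lk.trans hkl
  have hLk : 1 / (L : ℝ) ≤ Real.exp (-√(k : ℝ)) := by
    rw [Real.exp_neg, ← one_div]
    apply one_div_le_one_div_of_le (Real.exp_pos _)
    refine le_trans (Real.exp_le_exp.2 ?_) hL
    have h1 : √(k : ℝ) ≤ √(4 * l) := Real.sqrt_le_sqrt hku
    have h2 : √(4 * l) = 2 * √l := by
      rw [Real.sqrt_mul (by norm_num)]
      congr 1
      rw [show (4 : ℝ) = 2 ^ 2 by norm_num, Real.sqrt_sq (by norm_num)]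
    linarith
  obtain ⟨Tm, hTm⟩ : ∃ Tm : ℕ, Tm = (S ×ˢ range L).sup (fun ξ => ξ.1 + ξ.2) := ⟨_, rfl⟩
  have hTm1 : ∀ ξ ∈ S ×ˢ range L, ξ.1 + ξ.2 ≤ Tm := by
    intro ξ hξ
    rw [hTm]
    exact le_sup (f := fun ξ : ℕ × ℕ => ξ.1 + ξ.2) hξ
  have hSv := hsv k hkk S hS L hL1 hLk z w (by omega) (hzu.trans (pow_le_pow_left₀ hl0.le hkl _)) Tm hTm1
  have hSv' : SvP (S ×ˢ range L) (fun _ => 1 / ((S.card : ℝ) * L)) (fun ξ => Tm - (ξ.1 + ξ.2)) z w (1 / l ^ 6) := by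
    apply hSv.mono
    apply one_div_le_one_div_of_le (by positivity)
    exact pow_le_pow_left₀ hl0.le hkl 6
  have hP1 : ∑ _ξ ∈ S ×ˢ range L, (1 / ((S.card : ℝ) * L)) = 1 := by
    rw [sum_const, card_product, card_range, nsmul_eq_mul]
    push_cast
    field_simp
  -- the mean
  have hl2x : Real.log ((2 * x : ℕ) : ℝ) = Real.log 2 + l := by
    push_cast
    rw [Real.log_mul (by norm_num) hx0.ne', hl]
  have hlog2 : 0 < Real.log 2 := Real.log_pos (by norm_num)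
  have hlog2' : Real.log 2 ≤ 1 := by
    have := Real.log_two_lt_d9
    linarith
  have hrW : ∀ v ∈ S, W * v ≤ 2 * x := by
    intro v hv
    have h1 := hrange (v, 0) (mem_product.2 ⟨hv, mem_range.2 hL1⟩)
    simp only [add_zero] at h1
    rw [← hW] at h1
    have h2 : ((c + W * v : ℕ) : ℝ) ≤ x := by
      refine le_trans ?_ h1
      apply le_mul_of_one_le_right (Nat.cast_nonneg _)
      nlinarith
    have h3 : c + W * v ≤ x := by exact_mod_cast h2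
    omega
  have hmean1 := hmean (2 * x) (by omega) z (by
    rw [hl2x]
    refine le_trans ?_ hzl
    calc (Real.log 2 + l) ^ B ≤ (2 * l) ^ B := pow_le_pow_left₀ (by linarith) (by linarith) _
      _ ≤ (2 * l) ^ (B + 2) := pow_le_pow_right₀ (by linarith) (by omega)) (by
    rw [hl2x]
    exact hzu.trans (pow_le_pow_left₀ hl0.le (by linarith) _)) W hW1 S hS hrW (by
    rw [hl2x]
    push_cast
    have h1 : (energy s S : ℝ) * (2 * x) ≤ 2 * ((S.card : ℝ) ^ (2 * s) * l ^ C) := by linarith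
    refine h1.trans ?_
    have h2 : 2 * l ^ C ≤ (Real.log 2 + l) ^ (C + 1) := by
      calc 2 * l ^ C ≤ l ^ C * l := by
            have : 0 ≤ l ^ C := by positivity
            nlinarith
        _ = l ^ (C + 1) := (pow_succ l C).symm
        _ ≤ (Real.log 2 + l) ^ (C + 1) := pow_le_pow_left₀ hl0.le (by linarith) _
    have h3 : 0 ≤ (S.card : ℝ) ^ (2 * s) := by positivity
    nlinarith)
  rw [hl2x] at hmean1
  have hmean2 : ∀ A' ⊆ Icc 1 x, ∀ a : ℤ, ∑ v ∈ S, |∑ n ∈ A', EX z (2 * x) ((n : ℤ) + (a - ((W * v : ℕ) : ℤ)))| ≤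
      S.card * (x / l ^ (2 * u + 2)) := by
    intro A' hA' a
    refine (hmean1 A' (hA'.trans (Icc_subset_Icc le_rfl (by omega))) a).trans ?_
    apply mul_le_mul_of_nonneg_left _ hS0.le
    push_cast
    have h1 : (2 * (x : ℝ)) / (Real.log 2 + l) ^ (2 * u + 3) ≤ 2 * x / l ^ (2 * u + 3) := by
      apply div_le_div_of_nonneg_left (by positivity) (by positivity)
      exact pow_le_pow_left₀ hl0.le (by linarith) _
    refine h1.trans ?_
    rw [div_le_div_iff₀ (by positivity) (by positivity), pow_succ l (2 * u + 2)]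
    have h2 : 0 ≤ (x : ℝ) * l ^ (2 * u + 2) := by positivity
    nlinarith
  obtain ⟨hCT, hAc, hm⟩ := hm x hxx1 z (by omega) (by rw [← hl]; exact hzu) T hT hadm A hA hAT
  have hm := hm (ℕ × ℕ) (S ×ˢ range L) (fun _ => 1 / ((S.card : ℝ) * L)) (fun ξ => ξ.1 + ξ.2) Tm
    (fun _ _ => by positivity) hP1 hTm1 (by rw [← hl]; exact hSv') c (by
      intro A' hA'
      rw [← hl, ← hW]
      have h1 : ∑ ξ ∈ S ×ˢ range L, (1 / ((S.card : ℝ) * L)) *
          |∑ n ∈ A', EX z (2 * x) ((n : ℤ) + (-(c : ℤ) - ((W * (ξ.1 + ξ.2) : ℕ) : ℤ)))| =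
          ∑ j ∈ range L, (1 / ((S.card : ℝ) * L)) * ∑ v ∈ S,
            |∑ n ∈ A', EX z (2 * x) ((n : ℤ) + ((-(c : ℤ) - ((W * j : ℕ) : ℤ)) - ((W * v : ℕ) : ℤ)))| := by
        rw [sum_product_right]
        apply sum_congr rfl
        intro j _
        rw [mul_sum]
        apply sum_congr rfl
        intro v _
        congr 2
        apply sum_congr rfl
        intro n _
        congr 1
        push_cast
        ring
      rw [h1]
      have h2 : ∀ j ∈ range L, (1 / ((S.card : ℝ) * L)) * ∑ v ∈ S,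
            |∑ n ∈ A', EX z (2 * x) ((n : ℤ) + ((-(c : ℤ) - ((W * j : ℕ) : ℤ)) - ((W * v : ℕ) : ℤ)))| ≤
          (1 / ((S.card : ℝ) * L)) * (S.card * (x / l ^ (2 * u + 2))) := fun j _ =>
        mul_le_mul_of_nonneg_left (hmean2 A' hA' _) (by positivity)
      refine (sum_le_sum h2).trans ?_
      rw [sum_const, card_range, nsmul_eq_mul]
      apply le_of_eq
      field_simp) hrange' hcov
  have hfin := hcomb x z hx1' (by rw [← hl]; exact l4) hzw (1 / (L : ℝ)) (by positivity) (by rw [← hl]; exact q1) q2 T hT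
    hadm hTx hCT A.card (Nat.cast_nonneg _) hAc (ℕ × ℕ) (S ×ˢ range L) (fun _ => 1 / ((S.card : ℝ) * L))
    (fun ξ => ξ.1 + ξ.2) (fun _ _ => by positivity) hP1 c hcov (by
      intro ξ hξ
      have h1 := hrange ξ hξ
      have h2 : ((c + (∏ q ∈ pz w, q) * (ξ.1 + ξ.2) : ℕ) : ℝ) ≤ x :=
        (le_mul_of_one_le_right (Nat.cast_nonneg _) (by nlinarith)).trans h1
      exact_mod_cast h2) (by
      intro q hq hwq _ F hF hr
      exact clsS S hS L hL1 _ c q hq.one_lt.le (cop_W hq hwq) F hF hr)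
    (fun d => ((A.filter (fun n : ℕ => (n - d).Prime)).card : ℝ)) hm
  rw [sum_const, nsmul_eq_mul, mul_one_div, div_le_iff₀ (by positivity)] at hfin
  exact hfin

end Pool.Agent.K9h29.SS
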