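import Pool.Agent.K9h29.SS.Mn

set_option autoImplicit false

/-! The mean over a random shift of small collision probability. -/

namespace Pool.Agent.K9h29.SS

open Finset Filter
open scoped ArithmeticFunction.vonMangoldt
open Pool.Agent.H807R2.Dav (ee norm_ee ee_add ee_zero)
open Pool.Agent.H373R2.T7 (lamz pz mem_pz Vz Vz_pos)
open Pool.Agent.K9h54.TF (EX mert evlog)

/-- the probability that two sums of `s` independent variables with the law `P` are equal -/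
noncomputable def coll (s : ℕ) (S : Finset ℕ) (P : ℕ → ℝ) : ℝ :=
  ∑ fg ∈ ((Fintype.piFinset (fun _ : Fin s => S)) ×ˢ (Fintype.piFinset (fun _ : Fin s => S))).filter
    (fun fg => ∑ i, fg.1 i = ∑ i, fg.2 i), (∏ i, P (fg.1 i)) * ∏ i, P (fg.2 i)

/-- the mean square with majorants of the coefficients -/
theorem pars_leW {ι : Type} [DecidableEq ι] (q : ℕ) (hq : 1 ≤ q) (I : Finset ι) (c : ι → ℂ) (b : ι → ℝ) (ν : ι → ℤ)
    (hb : ∀ i ∈ I, 0 ≤ b i) (hc : ∀ i ∈ I, ‖c i‖ ≤ b i) :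
    ∑ a ∈ range q, ‖∑ i ∈ I, c i * ee ((ν i : ℝ) * ((a : ℝ) / q))‖ ^ 2 ≤
      q * ∑ x ∈ (I ×ˢ I).filter (fun x => (q : ℤ) ∣ ν x.1 - ν x.2), b x.1 * b x.2 := by
  have h1 := pars q hq I c ν
  have h0 : 0 ≤ ∑ a ∈ range q, ‖∑ i ∈ I, c i * ee ((ν i : ℝ) * ((a : ℝ) / q))‖ ^ 2 :=
    sum_nonneg fun a _ => by positivity
  have h2 : ∑ a ∈ range q, ‖∑ i ∈ I, c i * ee ((ν i : ℝ) * ((a : ℝ) / q))‖ ^ 2 =
      ‖((∑ a ∈ range q, ‖∑ i ∈ I, c i * ee ((ν i : ℝ) * ((a : ℝ) / q))‖ ^ 2 : ℝ) : ℂ)‖ := by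
    rw [Complex.norm_real, Real.norm_eq_abs, abs_of_nonneg h0]
  rw [h2, h1, norm_mul, Complex.norm_natCast]
  apply mul_le_mul_of_nonneg_left _ (Nat.cast_nonneg _)
  have h3 : ∑ x ∈ (I ×ˢ I).filter (fun x => (q : ℤ) ∣ ν x.1 - ν x.2), b x.1 * b x.2 =
      ∑ i ∈ I, ∑ j ∈ I, (if (q : ℤ) ∣ ν i - ν j then b i * b j else 0) := by
    rw [sum_filter, sum_product]
  rw [h3]
  refine (norm_sum_le _ _).trans (sum_le_sum fun i hi => ?_)
  refine (norm_sum_le _ _).trans (sum_le_sum fun j hj => ?_)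
  split_ifs
  · rw [norm_mul, RCLike.norm_conj]
    exact mul_le_mul (hc i hi) (hc j hj) (norm_nonneg _) (hb i hi)
  · rw [norm_zero]

/-- the moments of a weighted trigonometric sum -/
theorem momentW (s : ℕ) (S : Finset ℕ) (P : ℕ → ℝ) (hP : ∀ v ∈ S, 0 ≤ P v) (W q : ℕ) (hW : 1 ≤ W) (hq : 1 ≤ q)
    (N : ℕ) (hS : ∀ v ∈ S, W * v ≤ N) (hqN : s * N < q) (c : ℕ → ℂ) (hc : ∀ v ∈ S, ‖c v‖ ≤ P v) :
    ∑ a ∈ range q, ‖∑ v ∈ S, c v * ee ((((W * v : ℕ) : ℤ) : ℝ) * ((a : ℝ) / q))‖ ^ (2 * s) ≤ q * coll s S P := by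
  classical
  have h1 : ∀ a : ℕ, (∑ v ∈ S, c v * ee ((((W * v : ℕ) : ℤ) : ℝ) * ((a : ℝ) / q))) ^ s =
      ∑ f ∈ Fintype.piFinset (fun _ : Fin s => S), (∏ i, c (f i)) *
        ee ((((W * ∑ i, f i : ℕ) : ℤ) : ℝ) * ((a : ℝ) / q)) := by
    intro a
    have h2 := Finset.prod_univ_sum (ι := Fin s) (fun _ : Fin s => S)
      (fun _ v => c v * ee ((((W * v : ℕ) : ℤ) : ℝ) * ((a : ℝ) / q)))
    rw [prod_const, card_univ, Fintype.card_fin] at h2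
    rw [h2]
    apply sum_congr rfl
    intro f _
    rw [prod_mul_distrib, prod_ee]
    congr 2
    rw [← sum_mul]
    congr 1
    push_cast
    rw [mul_sum]
  have h3 : ∀ a : ℕ, ‖∑ v ∈ S, c v * ee ((((W * v : ℕ) : ℤ) : ℝ) * ((a : ℝ) / q))‖ ^ (2 * s) =
      ‖∑ f ∈ Fintype.piFinset (fun _ : Fin s => S), (∏ i, c (f i)) *
        ee ((((W * ∑ i, f i : ℕ) : ℤ) : ℝ) * ((a : ℝ) / q))‖ ^ 2 := by
    intro a
    rw [← h1, norm_pow, ← pow_mul, mul_comm s 2]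
  simp_rw [h3]
  have hb0 : ∀ f ∈ Fintype.piFinset (fun _ : Fin s => S), 0 ≤ ∏ i, P (f i) := fun f hf =>
    prod_nonneg fun i _ => hP _ (Fintype.mem_piFinset.1 hf i)
  have h4 := pars_leW q hq (Fintype.piFinset (fun _ : Fin s => S)) (fun f => ∏ i, c (f i)) (fun f => ∏ i, P (f i))
    (fun f => ((W * ∑ i, f i : ℕ) : ℤ)) hb0 (by
      intro f hf
      rw [norm_prod]
      exact prod_le_prod (fun i _ => norm_nonneg _) fun i _ => hc _ (Fintype.mem_piFinset.1 hf i))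
  refine h4.trans (mul_le_mul_of_nonneg_left ?_ (Nat.cast_nonneg _))
  unfold coll
  have h5 : ∀ f ∈ Fintype.piFinset (fun _ : Fin s => S), W * ∑ i, f i ≤ s * N := by
    intro f hf
    rw [mul_sum]
    have h6 : ∑ i, W * f i ≤ ∑ _i : Fin s, N := sum_le_sum fun i _ => hS _ (Fintype.mem_piFinset.1 hf i)
    rw [sum_const, card_univ, Fintype.card_fin, smul_eq_mul] at h6
    exact h6
  have h7 : (((Fintype.piFinset (fun _ : Fin s => S)) ×ˢ (Fintype.piFinset (fun _ : Fin s => S))).filter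
      (fun x => (q : ℤ) ∣ ((W * ∑ i, x.1 i : ℕ) : ℤ) - ((W * ∑ i, x.2 i : ℕ) : ℤ))) ⊆
      (((Fintype.piFinset (fun _ : Fin s => S)) ×ˢ (Fintype.piFinset (fun _ : Fin s => S))).filter
      (fun fg => ∑ i, fg.1 i = ∑ i, fg.2 i)) := by
    intro x hx
    rw [mem_filter] at hx ⊢
    refine ⟨hx.1, ?_⟩
    have g1 := h5 _ (mem_product.1 hx.1).1
    have g2 := h5 _ (mem_product.1 hx.1).2
    have g3 : ((W * ∑ i, x.1 i : ℕ) : ℤ) - ((W * ∑ i, x.2 i : ℕ) : ℤ) = 0 := by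
      apply Int.eq_zero_of_abs_lt_dvd hx.2
      rw [abs_lt]
      constructor <;> omega
    have g4 : W * ∑ i, x.1 i = W * ∑ i, x.2 i := by omega
    exact Nat.eq_of_mul_eq_mul_left hW g4
  apply sum_le_sum_of_subset_of_nonneg h7
  intro x hx _
  have h8 := mem_product.1 (mem_filter.1 hx).1
  exact mul_nonneg (hb0 _ h8.1) (hb0 _ h8.2)

/-- THE MEAN over a random shift of small collision probability -/
theorem meanW (s C U : ℕ) (hs : 1 ≤ s) : ∃ B : ℕ, ∀ E : ℕ, ∃ N0 : ℕ, ∀ N : ℕ, N0 ≤ N → ∀ z : ℕ,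
    Real.log N ^ B ≤ z → (z : ℝ) ≤ Real.log N ^ E → ∀ W : ℕ, 1 ≤ W → ∀ (S : Finset ℕ) (P : ℕ → ℝ),
    (∀ v ∈ S, 0 ≤ P v) → (∀ v ∈ S, W * v ≤ N) → coll s S P * N ≤ Real.log N ^ C → ∀ A ⊆ Icc 1 N, ∀ a : ℤ,
      ∑ v ∈ S, P v * |∑ n ∈ A, EX z N ((n : ℤ) + (a - ((W * v : ℕ) : ℤ)))| ≤ N / Real.log N ^ U := by
  classical
  obtain ⟨U', hU'⟩ : ∃ U' : ℕ, U' = U + (U + 2) * (s - 1) + C + 1 := ⟨_, rfl⟩
  obtain ⟨B, hB⟩ := Pool.Agent.H373R2.T7.sup_diff U'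
  refine ⟨B + 2, fun E => ?_⟩
  obtain ⟨N1, hN1⟩ := hB E
  obtain ⟨Cm, hCm, hM⟩ := mert
  have hg : ∀ᶠ l : ℝ in atTop, (Cm * E) * Real.log l ≤ l := by
    have h1 := (Real.isLittleO_log_id_atTop).bound (show (0 : ℝ) < 1 / (Cm * E + 1) by positivity)
    filter_upwards [h1, eventually_ge_atTop (1 : ℝ)] with l h2 h3
    rw [id, Real.norm_eq_abs, Real.norm_eq_abs, abs_of_nonneg (Real.log_nonneg h3), abs_of_nonneg (by linarith)] at h2
    have h4 : (Cm * E) * Real.log l ≤ (Cm * E) * (1 / (Cm * E + 1) * l) :=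
      mul_le_mul_of_nonneg_left h2 (by positivity)
    refine h4.trans ?_
    have h5 : (Cm * E) * (1 / (Cm * E + 1) * l) = (Cm * E) / (Cm * E + 1) * l := by ring
    rw [h5]
    apply mul_le_of_le_one_left (by linarith)
    rw [div_le_one (by positivity)]
    linarith
  obtain ⟨X, hX⟩ := evlog ((eventually_ge_atTop (4 : ℝ)).and hg)
  refine ⟨max (max N1 X) 1, fun N hN z hz1 hz2 W hW S P hP0 hS hen A hA a => ?_⟩
  have hNN1 : N1 ≤ N := (le_max_left _ _).trans ((le_max_left _ _).trans hN)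
  have hNX : X ≤ N := (le_max_right _ _).trans ((le_max_left _ _).trans hN)
  have hN1' : 1 ≤ N := (le_max_right _ _).trans hN
  obtain ⟨l4, lC⟩ := hX N hNX
  obtain ⟨l, hl⟩ : ∃ l, l = Real.log N := ⟨_, rfl⟩
  have hsup := hN1 N hNN1 z (by
    refine le_trans ?_ hz1
    apply pow_le_pow_right₀ (by linarith) (by omega)) hz2
  rw [← hl] at l4 lC hz1 hz2 hen hsup ⊢
  have hl0 : 0 < l := by linarith
  have hz16 : (16 : ℝ) ≤ z := by
    refine le_trans ?_ hz1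
    calc (16 : ℝ) = 4 ^ 2 := by norm_num
      _ ≤ l ^ 2 := pow_le_pow_left₀ (by norm_num) l4 2
      _ ≤ l ^ (B + 2) := pow_le_pow_right₀ (by linarith) (by omega)
  have hz3 : 3 ≤ z := by
    have : (3 : ℝ) ≤ z := by linarith
    exact_mod_cast this
  have hVl : (Vz z)⁻¹ ≤ l := by
    refine (hM z hz3).2.trans ?_
    have h1 := Real.log_le_log (by linarith) hz2
    rw [Real.log_pow] at h1
    have h2 : Cm * Real.log z ≤ Cm * (E * Real.log l) := mul_le_mul_of_nonneg_left h1 (by linarith)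
    linarith
  have hV0 : 0 < (Vz z)⁻¹ := inv_pos.2 (Vz_pos z)
  have hXb : ∀ n ∈ Icc 1 N, ‖((Λ n - lamz z n : ℝ) : ℂ)‖ ^ 2 ≤ l ^ 2 := by
    intro n hn
    rw [mem_Icc] at hn
    rw [Complex.norm_real, Real.norm_eq_abs]
    apply pow_le_pow_left₀ (abs_nonneg _)
    have h1 : Λ n ≤ l := by
      refine ArithmeticFunction.vonMangoldt_le_log.trans ?_
      rw [hl]
      exact Real.log_le_log (by exact_mod_cast hn.1) (by exact_mod_cast hn.2)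
    have h2 : (0 : ℝ) ≤ Λ n := ArithmeticFunction.vonMangoldt_nonneg
    have h3 : 0 ≤ lamz z n ∧ lamz z n ≤ (Vz z)⁻¹ := by
      unfold lamz
      split_ifs
      · exact ⟨hV0.le, le_rfl⟩
      · exact ⟨le_rfl, hV0.le⟩
    rw [abs_le]
    constructor <;> linarith [h3.1, h3.2]
  -- the signs
  obtain ⟨g, hgd⟩ : ∃ g : ℕ → ℝ, g = fun v => ∑ n ∈ A, EX z N ((n : ℤ) + (a - ((W * v : ℕ) : ℤ))) := ⟨_, rfl⟩
  obtain ⟨ε, hεd⟩ : ∃ ε : ℕ → ℝ, ε = fun v => P v * if 0 ≤ g v then 1 else -1 := ⟨_, rfl⟩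
  have hε1 : ∀ v ∈ S, ‖((ε v : ℝ) : ℂ)‖ ≤ P v := by
    intro v hv
    have h0 := hP0 v hv
    rw [Complex.norm_real, hεd, Real.norm_eq_abs]
    simp only
    split_ifs
    · rw [mul_one, abs_of_nonneg h0]
    · rw [mul_neg_one, abs_neg, abs_of_nonneg h0]
  have hεg : ∀ v, P v * |g v| = ε v * g v := by
    intro v
    rw [hεd]
    simp only
    split_ifs with h
    · rw [mul_one, abs_of_nonneg h]
    · rw [mul_neg_one, abs_of_neg (not_le.1 h), neg_mul_comm]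
  obtain ⟨c0, hc0⟩ : ∃ c0 : ℤ → ℝ, c0 = fun m => ∑ v ∈ S, ε v * EX z N (m - ((W * v : ℕ) : ℤ)) := ⟨_, rfl⟩
  have e1 : ∑ v ∈ S, P v * |g v| = ∑ n ∈ A, c0 ((n : ℤ) + a) := by
    rw [hc0]
    simp only
    rw [sum_comm]
    apply sum_congr rfl
    intro v _
    rw [hεg v, hgd]
    simp only
    rw [mul_sum]
    apply sum_congr rfl
    intro n _
    congr 2
    ring
  have hgoal : ∑ v ∈ S, P v * |∑ n ∈ A, EX z N ((n : ℤ) + (a - ((W * v : ℕ) : ℤ)))| = ∑ v ∈ S, P v * |g v| := by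
    rw [hgd]
  rw [hgoal]
  -- the support of `c0`
  have hsupp : ∀ m : ℤ, m ∉ Icc (1 : ℤ) (2 * N) → c0 m = 0 := by
    intro m hm
    rw [hc0]
    simp only
    apply sum_eq_zero
    intro v hv
    have h1 : ((W * v : ℕ) : ℤ) ≤ N := by exact_mod_cast hS v hv
    have h2 : (0 : ℤ) ≤ ((W * v : ℕ) : ℤ) := Int.natCast_nonneg _
    have h3 : EX z N (m - ((W * v : ℕ) : ℤ)) = 0 := by
      unfold EX
      rw [if_neg]
      rintro ⟨g1, g2⟩
      apply hm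
      rw [mem_Icc]
      constructor <;> linarith
    rw [h3, mul_zero]
  obtain ⟨D, hD⟩ : ∃ D : ℝ, D = ∑ m ∈ Icc (1 : ℤ) (2 * N), c0 m ^ 2 := ⟨_, rfl⟩
  have hAD : ∑ n ∈ A, c0 ((n : ℤ) + a) ^ 2 ≤ D := by
    have h1 : ∑ n ∈ A, c0 ((n : ℤ) + a) ^ 2 = ∑ m ∈ A.image (fun n : ℕ => (n : ℤ) + a), c0 m ^ 2 := by
      rw [sum_image (by intro x _ y _ h; simpa using h)]
    rw [h1, hD]
    have h2 : ∑ m ∈ A.image (fun n : ℕ => (n : ℤ) + a), c0 m ^ 2 =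
        ∑ m ∈ (A.image (fun n : ℕ => (n : ℤ) + a)).filter (fun m => m ∈ Icc (1 : ℤ) (2 * N)), c0 m ^ 2 := by
      rw [sum_filter]
      apply sum_congr rfl
      intro m _
      split_ifs with h
      · rfl
      · rw [hsupp m h]
        norm_num
    rw [h2]
    apply sum_le_sum_of_subset_of_nonneg
    · intro m hm
      exact (mem_filter.1 hm).2
    · intro m _ _
      positivity
  have hAN : (A.card : ℝ) ≤ N := by
    have h1 := card_le_card hA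
    rw [Nat.card_Icc] at h1
    exact_mod_cast (by omega : A.card ≤ N)
  have hcs : (∑ v ∈ S, P v * |g v|) ^ 2 ≤ N * D := by
    rw [e1]
    have h1 := sq_sum_le_card_mul_sum_sq (s := A) (f := fun n : ℕ => c0 ((n : ℤ) + a))
    refine h1.trans ?_
    exact mul_le_mul hAN hAD (sum_nonneg fun n _ => by positivity) (Nat.cast_nonneg _)
  -- the transform
  obtain ⟨q, hq⟩ : ∃ q : ℕ, q = (s + 2) * N + 1 := ⟨_, rfl⟩
  have hq1 : 1 ≤ q := by omega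
  have hqs : s * N < q := by
    rw [hq]
    nlinarith
  have hq2 : 2 * N < q := by
    rw [hq]
    nlinarith
  have hq0 : (0 : ℝ) < q := by exact_mod_cast hq1
  obtain ⟨F, hF⟩ : ∃ F : ℕ → ℂ, F = fun b : ℕ => ∑ n ∈ Icc 1 N, ((Λ n - lamz z n : ℝ) : ℂ) * ee ((n : ℝ) * ((b : ℝ) / q)) := ⟨_, rfl⟩
  obtain ⟨H, hH⟩ : ∃ H : ℕ → ℂ, H = fun b : ℕ => ∑ v ∈ S, ((ε v : ℝ) : ℂ) * ee ((((W * v : ℕ) : ℤ) : ℝ) * ((b : ℝ) / q)) := ⟨_, rfl⟩
  have hD1 : q * D = ∑ b ∈ range q, ‖F b * H b‖ ^ 2 := by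
    have h1 := pars_inj q hq1 (Icc (1 : ℤ) (2 * N)) (fun m => ((c0 m : ℝ) : ℂ)) (fun m => m) (by
      intro i hi j hj hij
      rw [mem_Icc] at hi hj
      have h2 : i - j = 0 := by
        apply Int.eq_zero_of_abs_lt_dvd hij
        rw [abs_lt]
        have h3 : (2 * (N : ℤ)) < q := by exact_mod_cast hq2
        constructor <;> linarith [hi.1, hi.2, hj.1, hj.2]
      linarith)
    have h2 : ∑ i ∈ Icc (1 : ℤ) (2 * N), ‖((c0 i : ℝ) : ℂ)‖ ^ 2 = D := by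
      rw [hD]
      apply sum_congr rfl
      intro i _
      rw [Complex.norm_real, Real.norm_eq_abs, sq_abs]
    rw [h2] at h1
    rw [← h1]
    apply sum_congr rfl
    intro b _
    congr 2
    have h3 := convl z N S (fun v => W * v) hS ε ((b : ℝ) / q)
    rw [hc0, hF, hH]
    exact h3
  have hFsum : ∑ b ∈ range q, ‖F b‖ ^ 2 ≤ q * (N * l ^ 2) := by
    have h1 := pars_inj q hq1 (Icc 1 N) (fun n => ((Λ n - lamz z n : ℝ) : ℂ)) (fun n => (n : ℤ)) (by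
      intro i hi j hj hij
      rw [mem_Icc] at hi hj
      have h2 : (i : ℤ) - j = 0 := by
        apply Int.eq_zero_of_abs_lt_dvd hij
        rw [abs_lt]
        constructor <;> omega
      omega)
    have h2 : ∑ b ∈ range q, ‖F b‖ ^ 2 = q * ∑ i ∈ Icc 1 N, ‖((Λ i - lamz z i : ℝ) : ℂ)‖ ^ 2 := by
      rw [← h1, hF]
      apply sum_congr rfl
      intro b _
      congr 2
    rw [h2]
    apply mul_le_mul_of_nonneg_left _ hq0.le
    refine (sum_le_sum hXb).trans ?_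
    rw [sum_const, Nat.card_Icc, nsmul_eq_mul]
    simp
  have hHsum : ∑ b ∈ range q, ‖H b‖ ^ (2 * s) ≤ q * coll s S P := by
    rw [hH]
    exact momentW s S P hP0 W q hW hq1 N hS hqs (fun v => ((ε v : ℝ) : ℂ)) hε1
  have hFsup : ∀ b, ‖F b‖ ^ 2 ≤ (N / l ^ U') ^ 2 := by
    intro b
    rw [hF]
    exact pow_le_pow_left₀ (norm_nonneg _) (hsup ((b : ℝ) / q)) 2
  obtain ⟨M, hMd⟩ : ∃ M : ℝ, M = 1 := ⟨_, rfl⟩
  have hM0 : 0 < M := by
    rw [hMd]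
    exact one_pos
  have hen : coll s S P * N ≤ M ^ (2 * s) * l ^ C := by
    rw [hMd, one_pow, one_mul]
    exact hen
  have hgl : (N : ℝ) / l ^ U = M * (N / l ^ U) := by rw [hMd, one_mul]
  rw [hgl]
  obtain ⟨m, hm⟩ : ∃ m : ℝ, m = M / l ^ (U + 2) := ⟨_, rfl⟩
  have hm0 : 0 < m := by
    rw [hm]
    positivity
  have hN0 : (0 : ℝ) < N := by exact_mod_cast hN1'
  have hD2 : q * D ≤ q * (m ^ 2 * (N * l ^ 2) + (N / l ^ U') ^ 2 / m ^ (2 * s - 2) * coll s S P) := by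
    rw [hD1]
    have h1 : ∀ b ∈ range q, ‖F b * H b‖ ^ 2 ≤ m ^ 2 * ‖F b‖ ^ 2 + (N / l ^ U') ^ 2 / m ^ (2 * s - 2) * ‖H b‖ ^ (2 * s) := by
      intro b _
      rw [norm_mul, mul_pow]
      have h2 := pw s hs ‖H b‖ m (norm_nonneg _) hm0
      have h3 : ‖F b‖ ^ 2 * ‖H b‖ ^ 2 ≤ ‖F b‖ ^ 2 * (m ^ 2 + ‖H b‖ ^ (2 * s) / m ^ (2 * s - 2)) :=
        mul_le_mul_of_nonneg_left h2 (by positivity)
      have h4 : ‖F b‖ ^ 2 * (‖H b‖ ^ (2 * s) / m ^ (2 * s - 2)) ≤ (N / l ^ U') ^ 2 * (‖H b‖ ^ (2 * s) / m ^ (2 * s - 2)) :=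
        mul_le_mul_of_nonneg_right (hFsup b) (by positivity)
      calc ‖F b‖ ^ 2 * ‖H b‖ ^ 2 ≤ m ^ 2 * ‖F b‖ ^ 2 + (N / l ^ U') ^ 2 * (‖H b‖ ^ (2 * s) / m ^ (2 * s - 2)) := by
            linarith
        _ = _ := by ring
    refine (sum_le_sum h1).trans ?_
    rw [sum_add_distrib, ← mul_sum, ← mul_sum]
    have h2 : m ^ 2 * ∑ b ∈ range q, ‖F b‖ ^ 2 ≤ m ^ 2 * (q * (N * l ^ 2)) :=
      mul_le_mul_of_nonneg_left hFsum (by positivity)
    have h3 : (N / l ^ U') ^ 2 / m ^ (2 * s - 2) * ∑ b ∈ range q, ‖H b‖ ^ (2 * s) ≤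
        (N / l ^ U') ^ 2 / m ^ (2 * s - 2) * (q * coll s S P) :=
      mul_le_mul_of_nonneg_left hHsum (by positivity)
    linarith
  have hD3 := le_of_mul_le_mul_left hD2 hq0
  -- the final estimate
  have k1 : N * (m ^ 2 * (N * l ^ 2)) ≤ (M * (N / l ^ U)) ^ 2 / 2 := by
    have h1 : N * (m ^ 2 * (N * l ^ 2)) = (M * (N / l ^ U)) ^ 2 * (1 / l ^ 2) := by
      rw [hm, pow_add l U 2]
      field_simp
    rw [h1]
    have h2 : 1 / l ^ 2 ≤ 1 / 2 := by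
      apply one_div_le_one_div_of_le (by norm_num)
      nlinarith
    have h3 := mul_le_mul_of_nonneg_left h2 (show 0 ≤ (M * (N / l ^ U)) ^ 2 by positivity)
    linarith
  have k2 : N * ((N / l ^ U') ^ 2 / m ^ (2 * s - 2) * coll s S P) ≤ (M * (N / l ^ U)) ^ 2 / 2 := by
    have h1 : N * ((N / l ^ U') ^ 2 / m ^ (2 * s - 2) * coll s S P) =
        (N / l ^ U') ^ 2 / m ^ (2 * s - 2) * (coll s S P * N) := by ring
    rw [h1]
    have h2 : (N / l ^ U') ^ 2 / m ^ (2 * s - 2) * (coll s S P * N) ≤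
        (N / l ^ U') ^ 2 / m ^ (2 * s - 2) * (M ^ (2 * s) * l ^ C) :=
      mul_le_mul_of_nonneg_left hen (by positivity)
    refine h2.trans ?_
    obtain ⟨j, hj⟩ : ∃ j, s = j + 1 := ⟨s - 1, by omega⟩
    have h3 : (N / l ^ U') ^ 2 / m ^ (2 * s - 2) * (M ^ (2 * s) * l ^ C) = (M * (N / l ^ U)) ^ 2 * (1 / l ^ (C + 2)) := by
      have e2 : 2 * s - 2 = 2 * j := by omega
      have e3 : 2 * s = 2 * j + 2 := by omega
      have e4 : U' = U + (U + 2) * j + C + 1 := by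
        rw [hU', hj, Nat.add_sub_cancel]
      have e5 : l ^ U' = l ^ U * (l ^ (U + 2)) ^ j * l ^ C * l := by
        rw [e4, pow_add, pow_add, pow_add, pow_one, pow_mul]
      rw [e2, e3, e5, hm, pow_add M, pow_add l C 2]
      have hl1 : l ^ U ≠ 0 := by positivity
      have hl2 : l ^ (U + 2) ≠ 0 := by positivity
      have hl3 : l ^ C ≠ 0 := by positivity
      obtain ⟨x1, hx1⟩ : ∃ x1, x1 = l ^ (U + 2) := ⟨_, rfl⟩
      obtain ⟨x2, hx2⟩ : ∃ x2, x2 = l ^ U := ⟨_, rfl⟩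
      obtain ⟨x3, hx3⟩ : ∃ x3, x3 = l ^ C := ⟨_, rfl⟩
      rw [← hx1] at hl2
      rw [← hx2] at hl1
      rw [← hx3] at hl3
      rw [← hx1, ← hx2, ← hx3, pow_mul M 2 j, pow_mul (M / x1) 2 j, div_pow M x1 2, div_pow (M ^ 2) (x1 ^ 2) j,
        ← pow_mul x1 2 j, mul_comm 2 j, pow_mul x1 j 2]
      field_simp
    rw [h3]
    have h4 : 1 / l ^ (C + 2) ≤ 1 / 2 := by
      apply one_div_le_one_div_of_le (by norm_num)
      calc (2 : ℝ) ≤ l ^ 2 := by nlinarith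
        _ ≤ l ^ (C + 2) := pow_le_pow_right₀ (by linarith) (by omega)
    have h5 := mul_le_mul_of_nonneg_left h4 (show 0 ≤ (M * (N / l ^ U)) ^ 2 by positivity)
    linarith
  have k3 : N * D ≤ (M * (N / l ^ U)) ^ 2 := by
    have h1 := mul_le_mul_of_nonneg_left hD3 hN0.le
    rw [mul_add] at h1
    linarith
  have k4 : (∑ v ∈ S, P v * |g v|) ^ 2 ≤ (M * (N / l ^ U)) ^ 2 := hcs.trans k3
  exact (pow_le_pow_iff_left₀ (sum_nonneg fun v hv => mul_nonneg (hP0 v hv) (abs_nonneg _)) (by positivity) two_ne_zero).1 k4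

end Pool.Agent.K9h29.SS
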