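import Pool.Agent.K9h29.SS.Fs
import Pool.Agent.K9h29.SS.Wt

set_option autoImplicit false

/-! One more prime for a random shift of small collision probability. -/

namespace Pool.Agent.K9h29.SS

open Finset Filter
open Pool.Agent.H387R2.Uni (nuT CT)
open Pool.Agent.H373R2.T7 (pz mem_pz Vz)
open Pool.Agent.K9h54.TF (EX evlog)
open Pool.Agent.K9h59.OM (SvP cop_W svg compl_class)

/-- the conditions on `l = log x` -/
structure Lw (K1 δ : ℝ) (E C3 w k₀ : ℕ) (l : ℝ) : Prop where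
  l4 : 4 ≤ l
  lw : (2 * w + 2 : ℝ) ≤ l
  d2 : 2 ≤ l ^ δ
  lk : (k₀ : ℝ) ≤ l ^ δ
  ll : 4 * C3 * δ ^ 2 + E + 1 ≤ Real.log l
  a1 : Real.exp (-l ^ δ) * (1 + E * Real.log l) + 2 / l ≤ K1

theorem lwE (K1 δ : ℝ) (hK1 : 0 < K1) (hδ : 0 < δ) (E C3 w k₀ : ℕ) : ∀ᶠ l : ℝ in atTop, Lw K1 δ E C3 w k₀ l := by
  have h1 : Tendsto (fun l : ℝ => 2 / l) atTop (nhds 0) := tendsto_const_nhds.div_atTop tendsto_id
  have hy : Tendsto (fun l : ℝ => l ^ δ) atTop atTop := tendsto_rpow_atTop hδ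
  have h2 : Tendsto (fun y : ℝ => y ^ 1 * Real.exp (-y)) atTop (nhds 0) :=
    Real.tendsto_pow_mul_exp_neg_atTop_nhds_zero 1
  have h2' : Tendsto (fun y : ℝ => y ^ 0 * Real.exp (-y)) atTop (nhds 0) :=
    Real.tendsto_pow_mul_exp_neg_atTop_nhds_zero 0
  have h3 : Tendsto (fun y : ℝ => y ^ 0 * Real.exp (-y) + E * (y ^ 1 * Real.exp (-y))) atTop (nhds (0 + E * 0)) :=
    h2'.add (h2.const_mul _)
  have h4 := h3.comp hy
  rw [mul_zero, add_zero] at h4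
  have h5 := (isLittleO_log_rpow_atTop hδ).bound (show (0 : ℝ) < 1 by norm_num)
  filter_upwards [eventually_ge_atTop (4 : ℝ), eventually_ge_atTop (2 * w + 2 : ℝ), hy.eventually_ge_atTop 2,
    hy.eventually_ge_atTop (k₀ : ℝ), Real.tendsto_log_atTop.eventually_ge_atTop (4 * C3 * δ ^ 2 + E + 1),
    h1.eventually (eventually_le_nhds (half_pos hK1)), h4.eventually (eventually_le_nhds (half_pos hK1)), h5]
    with l g1 g2 g3 g4 g5 g6 g7 g8
  refine ⟨g1, g2, g3, g4, g5, ?_⟩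
  simp only [Function.comp_apply, pow_zero, pow_one, one_mul] at g7
  have hl0 : 0 < l := by linarith
  rw [Real.norm_eq_abs, Real.norm_eq_abs, abs_of_nonneg (Real.log_nonneg (by linarith)),
    abs_of_nonneg (Real.rpow_nonneg hl0.le _), one_mul] at g8
  have g9 : Real.exp (-l ^ δ) * (1 + E * Real.log l) ≤ Real.exp (-l ^ δ) + E * (l ^ δ * Real.exp (-l ^ δ)) := by
    have e1 : Real.exp (-l ^ δ) + E * (l ^ δ * Real.exp (-l ^ δ)) = Real.exp (-l ^ δ) * (1 + E * l ^ δ) := by ring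
    rw [e1]
    apply mul_le_mul_of_nonneg_left _ (Real.exp_pos _).le
    have : (E : ℝ) * Real.log l ≤ E * l ^ δ := mul_le_mul_of_nonneg_left g8 (Nat.cast_nonneg _)
    linarith
  linarith

open Classical in
/-- ONE MORE PRIME for a random shift of small collision probability with equidistributed residues -/
theorem fsw (s C u : ℕ) (hs : 1 ≤ s) (hu : 1 ≤ u) (δ : ℝ) (hδ : 0 < δ) (ε : ℝ) (hε : 0 < ε) :
    ∃ w1 : ℕ, ∀ w : ℕ, w1 ≤ w → ∃ x0 : ℕ, ∀ x : ℕ, x0 ≤ x → ∀ T : Finset ℕ, T.card = u →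
    (∀ p, p.Prime → nuT T p < p) → (∀ h ∈ T, h ≤ x) → ∀ A ⊆ Icc 1 x, (∀ n ∈ A, ∀ h ∈ T, (n - h).Prime) → ∀ c : ℕ,
    (∀ r ∈ pz w, ∃ h ∈ T, h % r = c % r) → ∀ (S : Finset ℕ) (P : ℕ → ℝ), (∀ v ∈ S, 0 ≤ P v) → ∑ v ∈ S, P v = 1 →
    coll s S P * x ≤ Real.log x ^ C →
    ∀ (S' : Finset ℕ) (P' : ℕ → ℝ), (∀ v ∈ S', 0 ≤ P' v) → ∑ v ∈ S', P' v = 1 →
    (∀ q : ℕ, 1 ≤ q → (q : ℝ) ≤ Real.exp (Real.log (Real.log x) ^ 3) → Nat.Coprime q (∏ r ∈ pz w, r) → ∀ a : ℕ,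
      |∑ ξ ∈ (S ×ˢ S').filter (fun ξ => ξ.1 + ξ.2 ≡ a [MOD q]), P ξ.1 * P' ξ.2 - 1 / q| ≤ Real.exp (-Real.log x ^ δ)) →
    (∀ ξ ∈ S ×ˢ S', ((c + (∏ q ∈ pz w, q) * (ξ.1 + ξ.2) : ℕ) : ℝ) * Real.log x ^ 2 ≤ x) →
    ∑ ξ ∈ (S ×ˢ S').filter (fun ξ => c + (∏ q ∈ pz w, q) * (ξ.1 + ξ.2) ∈ T ∨
      ¬ (0 < CT (insert (c + (∏ q ∈ pz w, q) * (ξ.1 + ξ.2)) T) ∧
        |((A.filter (fun n : ℕ => (n - (c + (∏ q ∈ pz w, q) * (ξ.1 + ξ.2))).Prime)).card : ℝ) * Real.log x ^ (u + 1) /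
          (CT (insert (c + (∏ q ∈ pz w, q) * (ξ.1 + ξ.2)) T) * x) - A.card * Real.log x ^ u / (CT T * x)| ≤ ε)),
      P ξ.1 * P' ξ.2 ≤ ε := by
  obtain ⟨C5, hC5, hm⟩ := mdnG u hu
  obtain ⟨ν, hν, K1, hK1, w1, hcomb⟩ := combG u C5 hC5 ε hε
  obtain ⟨w2, hm⟩ := hm ν hν
  obtain ⟨B, hmean⟩ := meanW s (C + 1) (2 * u + 3) hs
  obtain ⟨E, hE⟩ : ∃ E, E = 2 * (B + 2) + 1 := ⟨_, rfl⟩
  obtain ⟨N0, hmean⟩ := hmean E
  obtain ⟨C3, k₀, hsv⟩ := svg ⌈(E : ℝ) / δ⌉₊ ⌈(6 : ℝ) / δ⌉₊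
  refine ⟨max w1 w2, fun w hw => ?_⟩
  have hcomb := hcomb w ((le_max_left _ _).trans hw)
  obtain ⟨x1, hm⟩ := hm w ((le_max_right _ _).trans hw) E
  obtain ⟨X, hX⟩ := evlog (lwE K1 δ hK1 hδ E C3 w k₀)
  refine ⟨max (max x1 X) (max N0 1), fun x hx T hT hadm hTx A hA hAT c hcov S P hP0 hP1 hen S' P' hP0' hP1' heq hrange => ?_⟩
  have hxx1 : x1 ≤ x := (le_max_left _ _).trans ((le_max_left _ _).trans hx)
  have hxX : X ≤ x := (le_max_right _ _).trans ((le_max_left _ _).trans hx)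
  have hxN : N0 ≤ x := (le_max_left _ _).trans ((le_max_right _ _).trans hx)
  have hx1' : 1 ≤ x := (le_max_right _ _).trans ((le_max_right _ _).trans hx)
  have hlg := hX x hxX
  obtain ⟨W, hW⟩ : ∃ W : ℕ, W = ∏ q ∈ pz w, q := ⟨_, rfl⟩
  have hW1 : 1 ≤ W := by
    rw [hW]
    exact Nat.pos_of_ne_zero (prod_ne_zero_iff.2 fun q hq => (mem_pz.1 hq).2.ne_zero)
  obtain ⟨l, hl⟩ : ∃ l, l = Real.log x := ⟨_, rfl⟩
  have hx0 : (0 : ℝ) < x := by exact_mod_cast hx1'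
  have hrange' : ∀ ξ ∈ S ×ˢ S', ((c + (∏ q ∈ pz w, q) * (ξ.1 + ξ.2) : ℕ) : ℝ) * Real.log x ^ 2 ≤ x := hrange
  have hJ0 : ∀ ξ ∈ S ×ˢ S', 0 ≤ P ξ.1 * P' ξ.2 := fun ξ hξ =>
    mul_nonneg (hP0 _ (mem_product.1 hξ).1) (hP0' _ (mem_product.1 hξ).2)
  have hJ1 : ∑ ξ ∈ S ×ˢ S', P ξ.1 * P' ξ.2 = 1 := by
    rw [sum_product]
    simp only
    simp_rw [← mul_sum, hP1', mul_one]
    exact hP1
  obtain ⟨l₀, hl₀⟩ : S'.Nonempty := by
    rw [nonempty_iff_ne_empty]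
    rintro rfl
    rw [sum_empty] at hP1'
    exact zero_ne_one hP1'
  rw [← hl] at hlg hen hrange heq
  obtain ⟨l4, lw, d2, lk, ll, a1⟩ := hlg
  have hl0 : 0 < l := by linarith
  have hll1 : 1 ≤ Real.log l := by
    have h1 : (0 : ℝ) ≤ 4 * C3 * δ ^ 2 := by positivity
    have h2 : (0 : ℝ) ≤ E := Nat.cast_nonneg _
    linarith
  -- the sieving limit
  obtain ⟨z, hz⟩ : ∃ z : ℕ, z = ⌈(2 * l) ^ (B + 2)⌉₊ := ⟨_, rfl⟩
  have hzl : (2 * l) ^ (B + 2) ≤ z := by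
    rw [hz]
    exact Nat.le_ceil _
  have hzu : (z : ℝ) ≤ l ^ E := by
    have h1 : (z : ℝ) ≤ (2 * l) ^ (B + 2) + 1 := by
      rw [hz]
      exact (Nat.ceil_lt_add_one (by positivity)).le
    have h2 : (2 * l) ^ (B + 2) ≤ l ^ (2 * (B + 2)) := by
      rw [pow_mul]
      exact pow_le_pow_left₀ (by positivity) (by nlinarith) _
    have h3 : 1 ≤ l ^ (2 * (B + 2)) := one_le_pow₀ (by linarith)
    rw [hE, pow_succ]
    nlinarith
  have hz2 : l ^ 2 ≤ z := by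
    refine le_trans ?_ hzl
    calc l ^ 2 ≤ (2 * l) ^ 2 := pow_le_pow_left₀ hl0.le (by linarith) 2
      _ ≤ (2 * l) ^ (B + 2) := pow_le_pow_right₀ (by linarith) (by omega)
  have hz0 : (0 : ℝ) < z := lt_of_lt_of_le (by positivity) hz2
  have hzw : 2 * w + 2 ≤ z := by
    have : (2 * w + 2 : ℝ) ≤ z := by nlinarith
    exact_mod_cast this
  have hlz : Real.log z ≤ E * Real.log l := by
    have h2 := Real.log_le_log hz0 hzu
    rwa [Real.log_pow] at h2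
  have q1 : Real.exp (-l ^ δ) * (1 + Real.log z) + 2 * l / z ≤ K1 := by
    have h4 : 2 * l / z ≤ 2 / l := by
      rw [div_le_div_iff₀ hz0 hl0]
      nlinarith
    have h5 : Real.exp (-l ^ δ) * (1 + Real.log z) ≤ Real.exp (-l ^ δ) * (1 + E * Real.log l) :=
      mul_le_mul_of_nonneg_left (by linarith) (Real.exp_pos _).le
    linarith
  have q2 : 2 / (z : ℝ) + Real.exp (-l ^ δ) ≤ K1 := by
    have h5 : 2 / (z : ℝ) ≤ 2 / l := by
      apply div_le_div_of_nonneg_left (by norm_num) hl0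
      nlinarith
    have h6 : Real.exp (-l ^ δ) ≤ Real.exp (-l ^ δ) * (1 + E * Real.log l) := by
      apply le_mul_of_one_le_right (Real.exp_pos _).le
      have : 0 ≤ (E : ℝ) * Real.log l := by positivity
      linarith
    linarith
  -- the parameter `k`
  obtain ⟨y, hy⟩ : ∃ y : ℝ, y = l ^ δ := ⟨_, rfl⟩
  rw [← hy] at d2 lk q1 q2 heq
  have hy0 : 0 < y := by linarith
  obtain ⟨k, hk⟩ : ∃ k : ℕ, k = ⌈y⌉₊ := ⟨_, rfl⟩
  have hky : y ≤ k := by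
    rw [hk]
    exact Nat.le_ceil _
  have hku : (k : ℝ) ≤ y ^ 2 := by
    have := (Nat.ceil_lt_add_one hy0.le).le
    rw [← hk] at this
    nlinarith
  have hkk : k₀ ≤ k := by exact_mod_cast lk.trans hky
  have hk0 : (0 : ℝ) < k := by linarith
  have hpow : ∀ m : ℝ, 0 ≤ m → l ^ m ≤ (k : ℝ) ^ ⌈m / δ⌉₊ := by
    intro m hm
    have h1 : l ^ m = y ^ (m / δ) := by
      rw [hy, ← Real.rpow_mul hl0.le]
      congr 1
      field_simp
    rw [h1]
    calc y ^ (m / δ) ≤ y ^ ((⌈m / δ⌉₊ : ℕ) : ℝ) := Real.rpow_le_rpow_of_exponent_le (by linarith) (Nat.le_ceil _)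
      _ = y ^ ⌈m / δ⌉₊ := Real.rpow_natCast _ _
      _ ≤ _ := pow_le_pow_left₀ hy0.le hky _
  have hzk : (z : ℝ) ≤ (k : ℝ) ^ ⌈(E : ℝ) / δ⌉₊ := by
    refine hzu.trans ?_
    have h1 := hpow E (Nat.cast_nonneg _)
    rwa [Real.rpow_natCast] at h1
  have hk6 : l ^ 6 ≤ (k : ℝ) ^ ⌈(6 : ℝ) / δ⌉₊ := by
    have h1 := hpow 6 (by norm_num)
    have h2 : l ^ (6 : ℝ) = l ^ 6 := by
      have := Real.rpow_natCast l 6
      exact_mod_cast this
    rwa [h2] at h1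
  have hek : Real.exp (-y) ≤ Real.exp (-√(k : ℝ)) := by
    apply Real.exp_le_exp.2
    have h1 : √(k : ℝ) ≤ y := by
      rw [Real.sqrt_le_left hy0.le]
      exact hku
    linarith
  have hq3 : Real.exp (C3 * Real.log k ^ 2) ≤ Real.exp (Real.log l ^ 3) := by
    apply Real.exp_le_exp.2
    have h1 : Real.log k ≤ 2 * δ * Real.log l := by
      have h2 := Real.log_le_log hk0 hku
      rw [Real.log_pow, hy, Real.log_rpow hl0] at h2
      push_cast at h2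
      linarith
    have h0 : 0 ≤ Real.log k := by
      apply Real.log_nonneg
      linarith
    have h3 : Real.log k ^ 2 ≤ (2 * δ * Real.log l) ^ 2 := pow_le_pow_left₀ h0 h1 2
    have h4 : (C3 : ℝ) * Real.log k ^ 2 ≤ C3 * (2 * δ * Real.log l) ^ 2 :=
      mul_le_mul_of_nonneg_left h3 (Nat.cast_nonneg _)
    have h5 : (C3 : ℝ) * (2 * δ * Real.log l) ^ 2 = (4 * C3 * δ ^ 2) * Real.log l ^ 2 := by ring
    have h6 : (4 * C3 * δ ^ 2) * Real.log l ^ 2 ≤ Real.log l * Real.log l ^ 2 := by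
      apply mul_le_mul_of_nonneg_right _ (by positivity)
      have h2 : (0 : ℝ) ≤ E := Nat.cast_nonneg _
      linarith
    have h7 : Real.log l * Real.log l ^ 2 = Real.log l ^ 3 := by ring
    linarith
  obtain ⟨Tm, hTm⟩ : ∃ Tm : ℕ, Tm = (S ×ˢ S').sup (fun ξ => ξ.1 + ξ.2) := ⟨_, rfl⟩
  have hTm1 : ∀ ξ ∈ S ×ˢ S', ξ.1 + ξ.2 ≤ Tm := by
    intro ξ hξ
    rw [hTm]
    exact le_sup (f := fun ξ : ℕ × ℕ => ξ.1 + ξ.2) hξ
  have hSv' : SvP (S ×ˢ S') (fun ξ => P ξ.1 * P' ξ.2) (fun ξ => Tm - (ξ.1 + ξ.2)) z w (1 / l ^ 6) := by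
    intro Q hQ hQw F hF
    have h3 := hsv k hkk (ℕ × ℕ) (S ×ˢ S') (fun ξ => P ξ.1 * P' ξ.2) (fun ξ => Tm - (ξ.1 + ξ.2)) (∏ r ∈ pz w, r) hJ0 (by
        intro q hq1 hq2 hqc a
        refine le_trans ?_ hek
        have h4 : (S ×ˢ S').filter (fun ξ => Tm - (ξ.1 + ξ.2) ≡ a [MOD q]) =
            (S ×ˢ S').filter (fun ξ => ξ.1 + ξ.2 ≡ Tm + (q - 1) * a [MOD q]) := by
          apply filter_congr
          intro ξ hξ
          exact compl_class hq1 (hTm1 ξ hξ)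
        rw [h4]
        exact heq q hq1 (hq2.trans hq3) hqc _) z (by omega) hzk Q hQ (by
        intro r hr hrc
        apply hQw r hr
        by_contra hcon
        apply hrc
        exact cop_W (mem_pz.1 hr).2 (not_le.1 hcon))
    have h4 : F = (S ×ˢ S').filter (fun ξ => ∀ r ∈ pz z, ¬ Q r (Tm - (ξ.1 + ξ.2))) := by
      ext ξ
      rw [hF, mem_filter]
    rw [h4]
    refine h3.trans ?_
    exact one_div_le_one_div_of_le (by positivity) hk6
  -- the mean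
  have hl2x : Real.log ((2 * x : ℕ) : ℝ) = Real.log 2 + l := by
    push_cast
    rw [Real.log_mul (by norm_num) hx0.ne', hl]
  have hlog2 : 0 < Real.log 2 := Real.log_pos (by norm_num)
  have hlog2' : Real.log 2 ≤ 1 := by
    have := Real.log_two_lt_d9
    linarith
  have hrW : ∀ v ∈ S, W * v ≤ 2 * x := by
    intro v hv
    have h1 := hrange (v, l₀) (mem_product.2 ⟨hv, hl₀⟩)
    simp only at h1
    rw [← hW] at h1
    have h2 : ((c + W * (v + l₀) : ℕ) : ℝ) ≤ x := by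
      refine le_trans ?_ h1
      apply le_mul_of_one_le_right (Nat.cast_nonneg _)
      nlinarith
    have h3 : c + W * (v + l₀) ≤ x := by exact_mod_cast h2
    have h4 : W * v ≤ W * (v + l₀) := Nat.mul_le_mul_left _ (Nat.le_add_right _ _)
    omega
  have hmean1 := hmean (2 * x) (by omega) z (by
    rw [hl2x]
    refine le_trans ?_ hzl
    calc (Real.log 2 + l) ^ B ≤ (2 * l) ^ B := pow_le_pow_left₀ (by linarith) (by linarith) _
      _ ≤ (2 * l) ^ (B + 2) := pow_le_pow_right₀ (by linarith) (by omega)) (by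
    rw [hl2x]
    exact hzu.trans (pow_le_pow_left₀ hl0.le (by linarith) _)) W hW1 S P hP0 hrW (by
    rw [hl2x]
    push_cast
    have h1 : coll s S P * (2 * x) ≤ 2 * l ^ C := by linarith
    refine h1.trans ?_
    calc 2 * l ^ C ≤ l ^ C * l := by
            have : 0 ≤ l ^ C := by positivity
            nlinarith
        _ = l ^ (C + 1) := (pow_succ l C).symm
        _ ≤ (Real.log 2 + l) ^ (C + 1) := pow_le_pow_left₀ hl0.le (by linarith) _)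
  rw [hl2x] at hmean1
  have hmean2 : ∀ A' ⊆ Icc 1 x, ∀ a : ℤ, ∑ v ∈ S, P v * |∑ n ∈ A', EX z (2 * x) ((n : ℤ) + (a - ((W * v : ℕ) : ℤ)))| ≤
      x / l ^ (2 * u + 2) := by
    intro A' hA' a
    refine (hmean1 A' (hA'.trans (Icc_subset_Icc le_rfl (by omega))) a).trans ?_
    push_cast
    have h1 : (2 * (x : ℝ)) / (Real.log 2 + l) ^ (2 * u + 3) ≤ 2 * x / l ^ (2 * u + 3) := by
      apply div_le_div_of_nonneg_left (by positivity) (by positivity)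
      exact pow_le_pow_left₀ hl0.le (by linarith) _
    refine h1.trans ?_
    rw [div_le_div_iff₀ (by positivity) (by positivity), pow_succ l (2 * u + 2)]
    have h2 : 0 ≤ (x : ℝ) * l ^ (2 * u + 2) := by positivity
    nlinarith
  obtain ⟨hCT, hAc, hm⟩ := hm x hxx1 z (by omega) (by rw [← hl]; exact hzu) T hT hadm A hA hAT
  have hm := hm (ℕ × ℕ) (S ×ˢ S') (fun ξ => P ξ.1 * P' ξ.2) (fun ξ => ξ.1 + ξ.2) Tm hJ0 hJ1 hTm1
    (by rw [← hl]; exact hSv') c (by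
      intro A' hA'
      rw [← hl, ← hW]
      have h1 : ∑ ξ ∈ S ×ˢ S', P ξ.1 * P' ξ.2 *
          |∑ n ∈ A', EX z (2 * x) ((n : ℤ) + (-(c : ℤ) - ((W * (ξ.1 + ξ.2) : ℕ) : ℤ)))| =
          ∑ j ∈ S', P' j * ∑ v ∈ S,
            P v * |∑ n ∈ A', EX z (2 * x) ((n : ℤ) + ((-(c : ℤ) - ((W * j : ℕ) : ℤ)) - ((W * v : ℕ) : ℤ)))| := by
        rw [sum_product_right]
        apply sum_congr rfl
        intro j _
        rw [mul_sum]
        apply sum_congr rfl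
        intro v _
        have h2 : ∑ n ∈ A', EX z (2 * x) ((n : ℤ) + (-(c : ℤ) - ((W * (v + j) : ℕ) : ℤ))) =
            ∑ n ∈ A', EX z (2 * x) ((n : ℤ) + ((-(c : ℤ) - ((W * j : ℕ) : ℤ)) - ((W * v : ℕ) : ℤ))) := by
          apply sum_congr rfl
          intro n _
          congr 1
          push_cast
          ring
        simp only
        rw [h2]
        ring
      rw [h1]
      have h2 : ∀ j ∈ S', P' j * ∑ v ∈ S,
            P v * |∑ n ∈ A', EX z (2 * x) ((n : ℤ) + ((-(c : ℤ) - ((W * j : ℕ) : ℤ)) - ((W * v : ℕ) : ℤ)))| ≤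
          P' j * (x / l ^ (2 * u + 2)) := fun j hj =>
        mul_le_mul_of_nonneg_left (hmean2 A' hA' _) (hP0' j hj)
      refine (sum_le_sum h2).trans ?_
      rw [← sum_mul, hP1', one_mul]) hrange' hcov
  have hfin := hcomb x z hx1' (by rw [← hl]; exact l4) hzw (Real.exp (-y)) (Real.exp_pos _).le
    (by rw [← hl]; exact q1) q2 T hT
    hadm hTx hCT A.card (Nat.cast_nonneg _) hAc (ℕ × ℕ) (S ×ˢ S') (fun ξ => P ξ.1 * P' ξ.2)
    (fun ξ => ξ.1 + ξ.2) hJ0 hJ1 c hcov (by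
      intro ξ hξ
      have h1 := hrange ξ hξ
      have h2 : ((c + (∏ q ∈ pz w, q) * (ξ.1 + ξ.2) : ℕ) : ℝ) ≤ x :=
        (le_mul_of_one_le_right (Nat.cast_nonneg _) (by nlinarith)).trans h1
      exact_mod_cast h2) (by
      intro q hq hwq hqz F hF hr
      obtain ⟨r, hr⟩ := hr
      rcases F.eq_empty_or_nonempty with h0 | ⟨v₀, hv₀⟩
      · rw [h0, sum_empty]
        positivity
      have hqe : (q : ℝ) ≤ Real.exp (Real.log l ^ 3) := by
        have h1 : (q : ℝ) ≤ z := by exact_mod_cast hqz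
        refine (h1.trans hzu).trans ?_
        rw [← Real.log_le_iff_le_exp (by positivity), Real.log_pow]
        have h2 : (E : ℝ) ≤ Real.log l := by
          have h1 : (0 : ℝ) ≤ 4 * C3 * δ ^ 2 := by positivity
          linarith
        have h3 : (E : ℝ) * Real.log l ≤ Real.log l * Real.log l := mul_le_mul_of_nonneg_right h2 (by linarith)
        have h4 : Real.log l * Real.log l ≤ Real.log l ^ 3 := by nlinarith
        linarith
      have h4 := (abs_le.1 (heq q hq.one_lt.le hqe (cop_W hq hwq) (v₀.1 + v₀.2))).2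
      have h5 : ∑ ξ ∈ F, P ξ.1 * P' ξ.2 ≤
          ∑ ξ ∈ (S ×ˢ S').filter (fun ξ => ξ.1 + ξ.2 ≡ v₀.1 + v₀.2 [MOD q]), P ξ.1 * P' ξ.2 := by
        apply sum_le_sum_of_subset_of_nonneg
        · intro v hv
          rw [mem_filter]
          refine ⟨hF hv, ?_⟩
          have h6 : c + (∏ q ∈ pz w, q) * (v.1 + v.2) ≡ c + (∏ q ∈ pz w, q) * (v₀.1 + v₀.2) [MOD q] :=
            (hr v hv).symm.trans (hr v₀ hv₀)
          have h7 : (∏ q ∈ pz w, q) * (v.1 + v.2) ≡ (∏ q ∈ pz w, q) * (v₀.1 + v₀.2) [MOD q] :=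
            Nat.ModEq.add_left_cancel' c h6
          exact Nat.ModEq.cancel_left_of_coprime (cop_W hq hwq) h7
        · intro v hv _
          exact hJ0 v (mem_filter.1 hv).1
      linarith)
    (fun d => ((A.filter (fun n : ℕ => (n - d).Prime)).card : ℝ)) hm
  exact hfin

end Pool.Agent.K9h29.SS
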