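import Pool.Agent.K9h59.OM.Cmb
import Pool.Agent.K9h29.SS.Mn

set_option autoImplicit false

/-! One more prime for a random shift downwards, for an arbitrary law of the shift. -/

namespace Pool.Agent.K9h29.SS

open Finset Filter
open Pool.Agent.H387R2.Uni (nuT locT CT CT_hasProd CT_nonneg)
open Pool.Agent.H373R2.T7 (pz mem_pz Vz Vz_pos)
open Pool.Agent.K9h54.TF (Sf PiT IsP EX evlog fin1 CT_low big4 few_bad cop_iff)
open Pool.Agent.K9h59.OM (SvP finL)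

open Classical in
/-- the shifts downwards -/
theorem mdnG (u : ℕ) (hu : 1 ≤ u) : ∃ C5 : ℝ, 1 ≤ C5 ∧
    ∀ ε : ℝ, 0 < ε → ∃ w1 : ℕ, ∀ w : ℕ, w1 ≤ w → ∀ B : ℕ, ∃ x0 : ℕ, ∀ x : ℕ, x0 ≤ x →
    ∀ z : ℕ, w ≤ z → (z : ℝ) ≤ Real.log x ^ B →
    ∀ T : Finset ℕ, T.card = u → (∀ p, p.Prime → nuT T p < p) → ∀ A ⊆ Icc 1 x, (∀ n ∈ A, ∀ h ∈ T, (n - h).Prime) →
      0 < CT T ∧ (A.card : ℝ) ≤ C5 * (CT T * (x / Real.log x ^ u)) ∧
      ∀ (ι : Type) (Ω : Finset ι) (P : ι → ℝ) (v : ι → ℕ) (Tm : ℕ), (∀ ω ∈ Ω, 0 ≤ P ω) → ∑ ω ∈ Ω, P ω = 1 →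
      (∀ ω ∈ Ω, v ω ≤ Tm) → SvP Ω P (fun ω => Tm - v ω) z w (1 / Real.log x ^ 6) → ∀ c : ℕ,
      (∀ A' ⊆ Icc 1 x, ∑ ω ∈ Ω, P ω * |∑ n ∈ A', EX z (2 * x) ((n : ℤ) + (-(c : ℤ) -
        (((∏ q ∈ pz w, q) * v ω : ℕ) : ℤ)))| ≤ x / Real.log x ^ (2 * u + 2)) →
      (∀ ξ ∈ Ω, ((c + (∏ q ∈ pz w, q) * v ξ : ℕ) : ℝ) * Real.log x ^ 2 ≤ x) →
      (∀ r ∈ pz w, ∃ h ∈ T, h % r = c % r) →
      ∑ ξ ∈ Ω.filter (fun ξ => 3 * ε * (CT T * (x / Real.log x ^ u)) <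
        |Real.log x * ((A.filter (fun n : ℕ => (n - (c + (∏ q ∈ pz w, q) * v ξ)).Prime)).card : ℝ) -
          (Vz w)⁻¹ * A.card|), P ξ ≤ ε := by
  obtain ⟨_, _, hfinL⟩ := finL u hu
  obtain ⟨C5, hC5, hfin1⟩ := fin1 u hu
  obtain ⟨c0, hc0, hCTl⟩ := CT_low u
  refine ⟨C5, hC5, fun ε hε => ?_⟩
  obtain ⟨w1, hfinL⟩ := hfinL (ε / 2) (by linarith)
  obtain ⟨wf, _, _, hf1⟩ := hfin1 (ε / 2) (by linarith) 0
  obtain ⟨xf, hf⟩ := hf1 0
  refine ⟨w1, fun w hw B => ?_⟩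
  obtain ⟨hw4, hfinL⟩ := hfinL w hw
  obtain ⟨W, hW⟩ : ∃ W : ℕ, W = ∏ q ∈ pz w, q := ⟨_, rfl⟩
  have hW1 : 1 ≤ W := by
    rw [hW]
    exact Nat.pos_of_ne_zero (prod_ne_zero_iff.2 fun q hq => (mem_pz.1 hq).2.ne_zero)
  obtain ⟨V, hV⟩ : ∃ V, V = (Vz w)⁻¹ := ⟨_, rfl⟩
  have hV0 : 0 < V := by rw [hV]; exact inv_pos.2 (Vz_pos w)
  rw [← hW, ← hV] at hfinL
  rw [← hW, ← hV]
  obtain ⟨x1, hfinL⟩ := hfinL B
  obtain ⟨X, hX⟩ := evlog (big4 0 (V * (u * w)) (ε * c0) V (by positivity) 0 u)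
  refine ⟨max (max (max x1 xf) X) 1, fun x hx z hwz hzB T hT hadm A hA hAT => ?_⟩
  have hxx1 : x1 ≤ x := (le_max_left _ _).trans ((le_max_left _ _).trans ((le_max_left _ _).trans hx))
  have hxxf : xf ≤ x := (le_max_right _ _).trans ((le_max_left _ _).trans ((le_max_left _ _).trans hx))
  have hxX : X ≤ x := (le_max_right _ _).trans ((le_max_left _ _).trans hx)
  have hx1' : 1 ≤ x := (le_max_right _ _).trans hx
  obtain ⟨l1, v1, _, c2⟩ := hX x hxX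
  have hx0 : (0 : ℝ) < x := by exact_mod_cast hx1'
  rw [Real.exp_log hx0] at c2
  obtain ⟨⟨a1, a2, a3⟩, _⟩ := hf x hxxf T hT hadm A hA hAT
  refine ⟨a3, a1, fun ι Ω P v Tm hP0 hP1 hTm1 hSv c hE hrange hcov => ?_⟩
  obtain ⟨l, hl⟩ : ∃ l, l = Real.log x := ⟨_, rfl⟩
  rw [← hl] at l1 v1 c2 a1 a2 hrange hSv hE ⊢
  have hl0 : 0 < l := by linarith
  obtain ⟨M, hM⟩ : ∃ M, M = CT T * (x / l ^ u) := ⟨_, rfl⟩
  rw [← hM] at a1 a2 ⊢
  have hM0 : 0 < M := by rw [hM]; positivity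
  have hVkw : V * (u * w) ≤ ε * M := by
    have h1 : V * (u * w) * l ^ u ≤ (ε * M) * l ^ u := by
      have e1 : (ε * M) * l ^ u = x * (ε * CT T) := by
        rw [hM]
        field_simp
      rw [e1]
      refine c2.trans ?_
      have := hCTl T hT hadm
      gcongr
    exact le_of_mul_le_mul_right h1 (by positivity)
  obtain ⟨s, hs⟩ : ∃ s : ℕ, s = ⌊(x : ℝ) / l ^ 2⌋₊ := ⟨_, rfl⟩
  rw [← hs] at a2
  obtain ⟨few, hfew⟩ : ∃ few : ℝ, few = ((A.filter (fun n : ℕ => n ≤ s)).card : ℝ) := ⟨_, rfl⟩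
  rw [← hfew] at a2
  have hfew0 : 0 ≤ few := by rw [hfew]; exact Nat.cast_nonneg _
  obtain ⟨d, hd⟩ : ∃ d : ι → ℕ, d = fun ξ => c + W * v ξ := ⟨_, rfl⟩
  have hdv : ∀ ξ, c + W * v ξ = d ξ := fun ξ => by rw [hd]
  simp only [hdv] at hrange ⊢
  have hds : ∀ ξ ∈ Ω, d ξ ≤ s := by
    intro ξ hξ
    rw [hs]
    apply Nat.le_floor
    rw [le_div_iff₀ (by positivity)]
    exact hrange ξ hξ
  have hsx : s ≤ x := by
    have h1 : (s : ℝ) ≤ x / l ^ 2 := by rw [hs]; exact Nat.floor_le (by positivity)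
    have h2 : (x : ℝ) / l ^ 2 ≤ x := by
      apply div_le_self hx0.le
      nlinarith
    exact_mod_cast h1.trans h2
  obtain ⟨A0, hA0⟩ : ∃ A0, A0 = A.filter (fun n : ℕ => ¬ n ≤ s) := ⟨_, rfl⟩
  have hA0A : A0 ⊆ A := by rw [hA0]; exact filter_subset _ _
  have hA0s : ∀ n ∈ A0, s < n := by
    intro n hn
    rw [hA0, mem_filter] at hn
    omega
  obtain ⟨a, ha⟩ : ∃ a : ℤ, a = -(c : ℤ) - W * Tm := ⟨_, rfl⟩
  have hval : ∀ ξ ∈ Ω, a + (W : ℤ) * ((Tm - v ξ : ℕ) : ℤ) = -(d ξ : ℤ) := by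
    intro ξ hξ
    rw [ha, Nat.cast_sub (hTm1 ξ hξ), hd]
    push_cast
    ring
  have hval2 : ∀ ξ : ι, -(c : ℤ) - ((W * v ξ : ℕ) : ℤ) = -(d ξ : ℤ) := by
    intro ξ
    rw [hd]
    push_cast
    ring
  have hrng : ∀ n ∈ A0, ∀ ξ ∈ Ω, 1 ≤ (n : ℤ) + -(d ξ : ℤ) ∧ (n : ℤ) + -(d ξ : ℤ) ≤ 2 * x := by
    intro n hn ξ hξ
    have g1 := hA0s n hn
    have g2 := hds ξ hξ
    have g3 := (mem_Icc.1 (hA (hA0A hn))).2
    have g4 : (d ξ : ℤ) < n := by exact_mod_cast (by omega : d ξ < n)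
    have g5 : (n : ℤ) ≤ x := by exact_mod_cast g3
    constructor <;> linarith
  have hE := hE A0 (hA0A.trans hA)
  have hL := (hfinL x hxx1 T hT hadm A0 (hA0A.trans hA) (fun n hn => hAT n (hA0A hn))).2 z hwz hzB
    ι Ω P (fun ξ => Tm - v ξ) a hP0 hP1 (by rw [← hl]; exact hSv) (by
      rw [← hl]
      refine le_trans (le_of_eq (sum_congr rfl fun ξ hξ => ?_)) hE
      congr 2
      apply sum_congr rfl
      intro n _
      rw [hval ξ hξ, hval2]) (by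
      intro n hn ξ hξ
      have h1 := hval ξ hξ
      have h2 := hrng n hn ξ hξ
      have h3 : (n : ℤ) + a + (W : ℤ) * ((Tm - v ξ : ℕ) : ℤ) = (n : ℤ) + -(d ξ : ℤ) := by
        rw [← h1]
        ring
      rw [h3]
      exact h2)
  rw [← hl, ← hM] at hL
  refine le_trans (le_trans (sum_le_sum_of_subset_of_nonneg ?_ fun ξ hξ _ => hP0 ξ (mem_filter.1 hξ).1) hL) (by linarith)
  intro ξ hξ
  rw [mem_filter] at hξ ⊢
  obtain ⟨hξ1, hξ2⟩ := hξ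
  refine ⟨hξ1, ?_⟩
  by_contra hcon
  push Not at hcon
  have hval3 : ∀ n : ℕ, (n : ℤ) + a + (W : ℤ) * ((Tm - v ξ : ℕ) : ℤ) = (n : ℤ) - d ξ := by
    intro n
    have h1 := hval ξ hξ1
    have h3 : (n : ℤ) + a + (W : ℤ) * ((Tm - v ξ : ℕ) : ℤ) = (n : ℤ) + (a + (W : ℤ) * ((Tm - v ξ : ℕ) : ℤ)) := by
      ring
    rw [h3, h1]
    ring
  have hA0n : ∀ n ∈ A0, d ξ < n := by
    intro n hn
    have g1 := hA0s n hn
    have g2 := hds ξ hξ1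
    omega
  have hB : A0.filter (fun n : ℕ => IsP ((n : ℤ) + a + (W : ℤ) * ((Tm - v ξ : ℕ) : ℤ))) =
      A0.filter (fun n : ℕ => (n - d ξ).Prime) := by
    apply filter_congr
    intro n hn
    rw [hval3]
    unfold IsP
    have h3 : ((n : ℤ) - d ξ).toNat = n - d ξ := by
      have := hA0n n hn
      omega
    rw [h3]
  have hS : A0.filter (fun n : ℕ => Sf (pz w) ((n : ℤ) + a)) = A0.filter (fun n : ℕ => (n - d ξ).Coprime W) := by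
    apply filter_congr
    intro n hn
    rw [hW, cop_iff]
    unfold Sf
    have h6 : ∀ p ∈ pz w, ((p : ℤ) ∣ (n : ℤ) + a ↔ p ∣ n - d ξ) := by
      intro p hp
      have h7 : (p : ℤ) ∣ (W : ℤ) * ((Tm - v ξ : ℕ) : ℤ) := by
        apply Dvd.dvd.mul_right
        rw [hW]
        exact Int.natCast_dvd_natCast.2 (dvd_prod_of_mem _ hp)
      have h8 := hA0n n hn
      have h9 : ((n - d ξ : ℕ) : ℤ) = (n : ℤ) + a + (W : ℤ) * ((Tm - v ξ : ℕ) : ℤ) := by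
        rw [hval3, Nat.cast_sub h8.le]
      rw [← Int.natCast_dvd_natCast, h9]
      exact (Int.dvd_add_left h7).symm
    exact forall₂_congr fun p hp => not_congr (h6 p hp)
  rw [hB, hS] at hcon
  have hsplit : ∀ R : ℕ → Prop, [DecidablePred R] → ((A.filter R).card : ℝ) = ((A0.filter R).card : ℝ) +
      (((A.filter (fun n : ℕ => n ≤ s)).filter R).card : ℝ) := by
    intro R _
    have h6 : A.filter R = A0.filter R ∪ (A.filter (fun n : ℕ => n ≤ s)).filter R := by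
      rw [hA0]
      ext n
      simp only [mem_filter, mem_union]
      tauto
    have h7 : Disjoint (A0.filter R) ((A.filter (fun n : ℕ => n ≤ s)).filter R) := by
      rw [hA0, disjoint_left]
      intro n h8 h9
      simp only [mem_filter] at h8 h9
      exact h8.1.2 h9.1.2
    rw [h6, card_union_of_disjoint h7]
    push_cast
    rfl
  have hcovd : ∀ r ∈ pz w, ∃ h ∈ T, h % r = d ξ % r := by
    intro r hr
    obtain ⟨h, hh, hhc⟩ := hcov r hr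
    refine ⟨h, hh, ?_⟩
    rw [hhc, hd]
    have h7 : r ∣ W * v ξ := by
      apply Dvd.dvd.mul_right
      rw [hW]
      exact dvd_prod_of_mem _ hr
    exact ((Nat.modEq_iff_dvd' (Nat.le_add_right c _)).2 (by simpa using h7))
  obtain ⟨f1, f2⟩ := few_bad (A := A) (T := T) (k := u) (w := w) (d := d ξ) (s := s) hT hAT (hds ξ hξ1) hcovd
  rw [← hW, ← hfew] at f1
  rw [← hW] at f2
  have e1 := hsplit (fun n : ℕ => (n - d ξ).Prime)
  have e2 := hsplit (fun n : ℕ => (n - d ξ).Coprime W)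
  have g1 : (((A.filter (fun n : ℕ => n ≤ s)).filter (fun n : ℕ => (n - d ξ).Prime)).card : ℝ) ≤ few := by
    rw [hfew]; exact_mod_cast card_filter_le _ _
  have g2 : (((A.filter (fun n : ℕ => n ≤ s)).filter (fun n : ℕ => (n - d ξ).Coprime W)).card : ℝ) ≤ few := by
    rw [hfew]; exact_mod_cast card_filter_le _ _
  have g3 : (0 : ℝ) ≤ (((A.filter (fun n : ℕ => n ≤ s)).filter (fun n : ℕ => (n - d ξ).Prime)).card : ℝ) := Nat.cast_nonneg _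
  have g4 : (0 : ℝ) ≤ (((A.filter (fun n : ℕ => n ≤ s)).filter (fun n : ℕ => (n - d ξ).Coprime W)).card : ℝ) :=
    Nat.cast_nonneg _
  obtain ⟨Bc, hBc⟩ : ∃ Bc : ℝ, Bc = ((A.filter (fun n : ℕ => (n - d ξ).Prime)).card : ℝ) := ⟨_, rfl⟩
  obtain ⟨B0, hB0⟩ : ∃ B0 : ℝ, B0 = ((A0.filter (fun n : ℕ => (n - d ξ).Prime)).card : ℝ) := ⟨_, rfl⟩
  obtain ⟨Sc, hSc⟩ : ∃ Sc : ℝ, Sc = ((A.filter (fun n : ℕ => (n - d ξ).Coprime W)).card : ℝ) := ⟨_, rfl⟩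
  obtain ⟨S0, hS0⟩ : ∃ S0 : ℝ, S0 = ((A0.filter (fun n : ℕ => (n - d ξ).Coprime W)).card : ℝ) := ⟨_, rfl⟩
  obtain ⟨fp, hfp⟩ : ∃ fp : ℝ, fp = (((A.filter (fun n : ℕ => n ≤ s)).filter (fun n : ℕ => (n - d ξ).Prime)).card : ℝ) := ⟨_, rfl⟩
  obtain ⟨fc, hfc⟩ : ∃ fc : ℝ, fc = (((A.filter (fun n : ℕ => n ≤ s)).filter (fun n : ℕ => (n - d ξ).Coprime W)).card : ℝ) := ⟨_, rfl⟩
  rw [← hBc, ← hB0, ← hfp] at e1
  rw [← hSc, ← hS0, ← hfc] at e2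
  rw [← hfp] at g1 g3
  rw [← hfc] at g2 g4
  rw [← hSc] at f1 f2
  rw [← hB0, ← hS0] at hcon
  rw [← hBc] at hξ2
  -- the final estimate
  have m1 : l * fp ≤ l * few := mul_le_mul_of_nonneg_left g1 hl0.le
  have m1' : 0 ≤ l * fp := mul_nonneg hl0.le g3
  have m2 : V * fc ≤ l * few := mul_le_mul v1 g2 g4 hl0.le
  have m2' : 0 ≤ V * fc := mul_nonneg hV0.le g4
  have m3 : V * few ≤ l * few := mul_le_mul_of_nonneg_right v1 hfew0
  have m4 : V * (A.card : ℝ) ≤ V * Sc + (V * few + V * (u * w)) := by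
    have := mul_le_mul_of_nonneg_left f1 hV0.le
    linarith
  have m5 : V * Sc ≤ V * (A.card : ℝ) := mul_le_mul_of_nonneg_left f2 hV0.le
  have m6 := abs_le.1 hcon
  have m7 : l * Bc = l * B0 + l * fp := by rw [e1]; ring
  have m8 : V * Sc = V * S0 + V * fc := by rw [e2]; ring
  have m9 : l * few ≤ ε / 2 * M := by linarith
  have m10 : |l * Bc - V * (A.card : ℝ)| ≤ 3 * ε * M := by
    have : 0 ≤ ε * M := by positivity
    rw [abs_le]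
    constructor <;> linarith
  exact absurd hξ2 (not_lt.2 m10)

end Pool.Agent.K9h29.SS
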